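import Mathlib

/-!
Definitions: UHF algebras, TAF subalgebras, the order on the spectrum of the diagonal, and the
conditions (i) and (ii).
-/

namespace Pool.Agent.Lib.MP_6e0de5_an

open MeasureTheory

variable {A : Type} [CStarAlgebra A]

/-- `F 0 ⊆ F 1 ⊆ ⋯` are unital finite-dimensional factors (copies of `M_k(ℂ)`) whose union is
norm dense in `A`; so `A` is a unital UHF algebra. -/
structure IsUHF (F : ℕ → StarSubalgebra ℂ A) : Prop where
  mono : Monotone F
  factor : ∀ n, ∃ k : ℕ, 0 < k ∧ Nonempty (F n ≃⋆ₐ[ℂ] Matrix (Fin k) (Fin k) ℂ)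
  dense : closure (⋃ n, (F n : Set A)) = Set.univ

/-- the diagonal `T ∩ T*` of a subalgebra -/
def diag (T : Subalgebra ℂ A) : StarSubalgebra ℂ A where
  carrier := {a | a ∈ T ∧ star a ∈ T}
  mul_mem' := fun {a b} ha hb => ⟨T.mul_mem ha.1 hb.1, by
    rw [star_mul]; exact T.mul_mem hb.2 ha.2⟩
  one_mem' := ⟨T.one_mem, by rw [star_one]; exact T.one_mem⟩
  add_mem' := fun {a b} ha hb => ⟨T.add_mem ha.1 hb.1, by
    rw [star_add]; exact T.add_mem ha.2 hb.2⟩
  zero_mem' := ⟨T.zero_mem, by rw [star_zero]; exact T.zero_mem⟩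
  algebraMap_mem' := fun r => ⟨T.algebraMap_mem r, by
    rw [← algebraMap_star_comm]; exact T.algebraMap_mem _⟩
  star_mem' := fun {a} ha => ⟨ha.2, by rw [star_star]; exact ha.1⟩

/-- `D` is a masa relative to the sequence `F`: it is abelian, and `D ∩ F n` is maximal abelian in
`F n` (that is, equal to its commutant in `F n`) for all `n`. -/
structure IsMasa (F : ℕ → StarSubalgebra ℂ A) (D : StarSubalgebra ℂ A) : Prop where
  comm : ∀ a ∈ D, ∀ b ∈ D, a * b = b * a
  maximal : ∀ n, ∀ a ∈ F n, (∀ d ∈ D, d ∈ F n → a * d = d * a) → a ∈ D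

/-- `T` is a TAF subalgebra: norm closed, with `T ∩ T*` a masa. -/
structure IsTAF (F : ℕ → StarSubalgebra ℂ A) (T : Subalgebra ℂ A) : Prop where
  closed : IsClosed (T : Set A)
  masa : IsMasa F (diag T)

/-- `T + T*` is norm dense. -/
def IsStronglyMaximal (T : Subalgebra ℂ A) : Prop :=
  closure {c : A | ∃ a ∈ T, ∃ b ∈ T, c = a + star b} = Set.univ

/-- the spectrum (Gelfand dual) `X` of the diagonal, with its Borel sets -/
abbrev Spec (D : StarSubalgebra ℂ A) : Type := WeakDual.characterSpace ℂ D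

noncomputable instance (D : StarSubalgebra ℂ A) : MeasurableSpace (Spec D) := borel _

instance (D : StarSubalgebra ℂ A) : BorelSpace (Spec D) := ⟨rfl⟩

/-- `v` is a partial isometry with `v D v* ⊆ D` and `v* D v ⊆ D`. -/
structure Normalizes (D : StarSubalgebra ℂ A) (v : A) : Prop where
  partialIsometry : v * star v * v = v
  left : ∀ d ∈ D, v * d * star v ∈ D
  right : ∀ d ∈ D, star v * d * v ∈ D

/-- The partial homeomorphism induced by `v` is defined at the points `y` of `X` with
`y(v* v) = 1`, and sends such a `y` to the point `x` with `x(d) = y(v* d v)`.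
`Graph D v x y` says that it is defined at `y` and sends `y` to `x`. -/
def Graph (D : StarSubalgebra ℂ A) (v : A) (x y : Spec D) : Prop :=
  ∃ h : ∀ d : D, star v * (d : A) * v ∈ D,
    y ⟨star v * ((1 : D) : A) * v, h 1⟩ = 1 ∧ ∀ d : D, x d = y ⟨star v * (d : A) * v, h d⟩

/-- The relation `x ≤ y`, that is `(x, y) ∈ P`, on `X`: some `v ∈ T` normalizing the diagonal
has `(x, y)` in its graph. The Boolean `flip` selects one of the two conventions for the
direction in which the graph of the partial homeomorphism is read. -/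
def Le (flip : Bool) (T : Subalgebra ℂ A) (x y : Spec (diag T)) : Prop :=
  ∃ v ∈ T, Normalizes (diag T) v ∧
    (if flip then Graph (diag T) v y x else Graph (diag T) v x y)

/-- decreasing sets -/
def IsDecreasing (flip : Bool) (T : Subalgebra ℂ A) (E : Set (Spec (diag T))) : Prop :=
  ∀ x y, y ∈ E → Le flip T x y → x ∈ E

/-- increasing sets -/
def IsIncreasing (flip : Bool) (T : Subalgebra ℂ A) (E : Set (Spec (diag T))) : Prop :=
  ∀ x y, x ∈ E → Le flip T x y → y ∈ E

/-- the clopen set of `X` that corresponds to a projection `e` of the diagonal -/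
def supp {D : StarSubalgebra ℂ A} (e : D) : Set (Spec D) := {x | x e = 1}

/-- `e 0 ≥ e 1 ≥ ⋯` are projections of `D` whose clopen sets shrink to `{x}`. -/
structure Shrinks {D : StarSubalgebra ℂ A} (e : ℕ → D) (x : Spec D) : Prop where
  proj : ∀ n, IsStarProjection (e n)
  anti : ∀ n, e (n + 1) * e n = e (n + 1)
  inter : ⋂ n, supp (e n) = {x}

/-- `E_x`: the intersection over `n` of the smallest decreasing set containing `supp (e n)` -/
def Eset (flip : Bool) {T : Subalgebra ℂ A} (e : ℕ → diag T) : Set (Spec (diag T)) :=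
  ⋂ n, ⋂₀ {E | IsDecreasing flip T E ∧ supp (e n) ⊆ E}

/-- `J_x`: the intersection over `n` of the smallest increasing set containing `supp (e n)` -/
def Jset (flip : Bool) {T : Subalgebra ℂ A} (e : ℕ → diag T) : Set (Spec (diag T)) :=
  ⋂ n, ⋂₀ {E | IsIncreasing flip T E ∧ supp (e n) ⊆ E}

/-- `τ` is the normalized trace of `A`: a tracial state. -/
structure IsTrace (τ : A →L[ℂ] ℂ) : Prop where
  one : τ 1 = 1
  pos : ∀ a, 0 ≤ (τ (star a * a)).re ∧ (τ (star a * a)).im = 0
  comm : ∀ a b, τ (a * b) = τ (b * a)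

/-- `μ` is the Borel probability measure on `X` that represents the restriction to `D` of the
normalized trace of `A`. -/
structure IsTraceMeasure {D : StarSubalgebra ℂ A} (μ : Measure (Spec D)) : Prop where
  prob : IsProbabilityMeasure μ
  eq : ∃ τ : A →L[ℂ] ℂ, IsTrace τ ∧ ∀ d : D, ∫ x : Spec D, x d ∂μ = τ d

/-- Condition (i): `μ (E_x ∩ J_x) = 0` for every `x`. -/
def CondI (flip : Bool) (T : Subalgebra ℂ A) (μ : Measure (Spec (diag T))) : Prop :=
  ∀ (x : Spec (diag T)) (e : ℕ → diag T), Shrinks e x → μ (Eset flip e ∩ Jset flip e) = 0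

/-- Condition (ii): for `x ≤ y`, `x ≠ y`, either `μ (E_x) < μ (E_y)`, or some increasing clopen
set contains `y` but not `x`. -/
def CondII (flip : Bool) (T : Subalgebra ℂ A) (μ : Measure (Spec (diag T))) : Prop :=
  ∀ x y : Spec (diag T), Le flip T x y → x ≠ y →
    (∀ e f : ℕ → diag T, Shrinks e x → Shrinks f y → μ (Eset flip e) < μ (Eset flip f)) ∨
    ∃ U : Set (Spec (diag T)), IsClopen U ∧ IsIncreasing flip T U ∧ y ∈ U ∧ x ∉ U

end Pool.Agent.Lib.MP_6e0de5_an
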