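import Pool.Agent.Lib.MP_6e0de5_an.Op
import Pool.Agent.Lib.MP_6e0de5_an.Defs

/-!
The UHF algebra, the triangular subalgebra, and its diagonal.
-/

namespace Pool.Agent.Lib.MP_6e0de5_an

open scoped ComplexConjugate

noncomputable section

lemma pif_mem_range {n m : ℕ} (h : n ≤ m) (α : Matrix (X n) (X n) ℂ) :
    ∃ β : Matrix (X m) (X m) ℂ, pif n α = pif m β := by
  classical
  refine ⟨fun p q => if ∀ k : Fin m, n ≤ k → p k = q k then
      α (fun k => p ⟨k, k.2.trans_le h⟩) (fun k => q ⟨k, k.2.trans_le h⟩) else 0, ?_⟩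
  refine ent_ext fun x y => ?_
  rw [ent_pif, ent_pif]
  by_cases h1 : Teq n x y
  · rw [if_pos h1, if_pos (h1.mono h), if_pos]
    · rfl
    · intro k hk
      exact h1 k hk
  · rw [if_neg h1]
    by_cases h2 : Teq m x y
    · rw [if_pos h2, if_neg]
      intro h3
      apply h1
      intro k hk
      by_cases hkm : k < m
      · exact h3 ⟨k, hkm⟩ hk
      · exact h2 k (not_lt.mp hkm)
    · rw [if_neg h2]

lemma range_mono : Monotone fun n => (piHom n).range := by
  rintro n m h _ ⟨α, rfl⟩
  obtain ⟨β, hβ⟩ := pif_mem_range h α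
  exact ⟨β, hβ.symm⟩

/-- the UHF algebra as a closed star subalgebra of the bounded operators -/
def Alg : StarSubalgebra ℂ B := (⨆ n, (piHom n).range).topologicalClosure

instance : IsClosed (Alg : Set B) := StarSubalgebra.isClosed_topologicalClosure _

/-- the UHF algebra -/
abbrev AA : Type := Alg

instance : CStarAlgebra AA := inferInstance

lemma pif_mem (n : ℕ) (α : Matrix (X n) (X n) ℂ) : pif n α ∈ Alg := by
  refine StarSubalgebra.le_topologicalClosure _ ?_
  exact (le_iSup (fun n => (piHom n).range) n) ⟨α, rfl⟩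

/-- the representation with values in the algebra -/
def piA (n : ℕ) : Matrix (X n) (X n) ℂ →⋆ₐ[ℂ] AA := (piHom n).codRestrict Alg (pif_mem n)

lemma coe_piA (n : ℕ) (α : Matrix (X n) (X n) ℂ) : ((piA n α : AA) : B) = pif n α := rfl

/-- the finite-dimensional factors -/
def FF (n : ℕ) : StarSubalgebra ℂ AA := (piA n).range

lemma mem_FF {n : ℕ} {a : AA} : a ∈ FF n ↔ ∃ α, (a : B) = pif n α := by
  constructor
  · rintro ⟨α, rfl⟩
    exact ⟨α, rfl⟩
  · rintro ⟨α, h⟩
    exact ⟨α, Subtype.ext h.symm⟩

lemma approx (a : AA) {ε : ℝ} (hε : 0 < ε) : ∃ n α, ‖(a : B) - pif n α‖ < ε := by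
  have h1 : (a : B) ∈ closure ((⨆ n, (piHom n).range : StarSubalgebra ℂ B) : Set B) := by
    have := a.2
    exact this
  rw [StarSubalgebra.coe_iSup_of_directed (range_mono.directed_le)] at h1
  obtain ⟨b, hb, hab⟩ := Metric.mem_closure_iff.mp h1 ε hε
  obtain ⟨n, α, rfl⟩ := Set.mem_iUnion.mp hb
  exact ⟨n, α, by rwa [dist_eq_norm] at hab⟩

lemma FF_mono : Monotone FF := by
  intro n m h a ha
  obtain ⟨α, hα⟩ := mem_FF.mp ha
  obtain ⟨β, hβ⟩ := pif_mem_range h α
  exact mem_FF.mpr ⟨β, hα.trans hβ⟩

lemma FF_dense : closure (⋃ n, (FF n : Set AA)) = Set.univ := by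
  refine Set.eq_univ_of_forall fun a => ?_
  rw [Metric.mem_closure_iff]
  intro ε hε
  obtain ⟨n, α, h⟩ := approx a hε
  refine ⟨piA n α, Set.mem_iUnion.mpr ⟨n, ⟨α, rfl⟩⟩, ?_⟩
  rw [dist_eq_norm]
  exact h

lemma isUHF : IsUHF FF where
  mono := FF_mono
  factor := fun n => by
    classical
    refine ⟨Fintype.card (X n), Fintype.card_pos, ?_⟩
    -- reindex the matrices
    let e : X n ≃ Fin (Fintype.card (X n)) := Fintype.equivFin (X n)
    have hinj : Function.Injective (piA n) := fun α β h => by
      apply piHom_injective n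
      exact congrArg (fun a : AA => (a : B)) h
    let f := StarAlgEquiv.ofInjective (piA n) hinj
    let g : Matrix (X n) (X n) ℂ ≃⋆ₐ[ℂ] Matrix (Fin (Fintype.card (X n)))
        (Fin (Fintype.card (X n))) ℂ :=
      StarAlgEquiv.ofAlgEquiv (Matrix.reindexAlgEquiv ℂ ℂ e) (fun α => by
        ext i j
        simp [Matrix.star_apply])
    exact ⟨f.symm.trans g⟩
  dense := FF_dense

lemma tail_of_ent (a : AA) (x y : Om) (h : ent (a : B) x y ≠ 0) : ∃ n, Teq n x y := by
  by_contra hc
  have h1 : 0 < ‖ent (a : B) x y‖ := norm_pos_iff.mpr h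
  obtain ⟨n, α, h2⟩ := approx a h1
  have h3 := norm_ent_le ((a : B) - pif n α) x y
  rw [ent_sub, ent_pif, if_neg fun h' => hc ⟨n, h'⟩, sub_zero] at h3
  exact absurd h3 (not_le.mpr h2)

lemma continuous_ent_pif (n : ℕ) (α : Matrix (X n) (X n) ℂ) :
    Continuous fun x : Om => ent (pif n α) x x := by
  have h1 : (fun x : Om => ent (pif n α) x x) = fun x => α (res n x) (res n x) := by
    funext x
    rw [ent_pif, if_pos (Teq.refl n x)]
  rw [h1]
  have h2 : Continuous (res n) := by
    refine continuous_pi fun k => ?_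
    exact continuous_apply _
  exact (continuous_of_discreteTopology (f := fun p : X n => α p p)).comp h2

lemma continuous_ent (a : AA) : Continuous fun x : Om => ent (a : B) x x := by
  refine continuous_of_uniform_approx_of_continuous fun u hu => ?_
  obtain ⟨ε, hε, hu⟩ := Metric.mem_uniformity_dist.mp hu
  obtain ⟨n, α, h⟩ := approx a hε
  refine ⟨fun x => ent (pif n α) x x, continuous_ent_pif n α, fun x => hu ?_⟩
  rw [dist_eq_norm, ← ent_sub]
  exact (norm_ent_le _ x x).trans_lt h

/-- order relation of the triangular algebra -/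
def rel (flip : Bool) (x y : Om) : Prop := if flip then ord y x else ord x y

lemma rel_refl (flip : Bool) (x : Om) : rel flip x x := by
  cases flip
  · exact ord_refl x
  · exact ord_refl x

lemma rel_trans {flip : Bool} {x y z : Om} (h1 : rel flip x y) (h2 : rel flip y z) :
    rel flip x z := by
  cases flip
  · exact ord_trans (x := x) (y := y) h1 h2
  · exact ord_trans (x := z) (y := y) h2 h1

lemma rel_antisymm {flip : Bool} {x y : Om} (h1 : rel flip x y) (h2 : rel flip y x) :
    x = y := by
  cases flip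
  · exact ord_antisymm (x := x) (y := y) h1 h2
  · exact ord_antisymm (x := x) (y := y) h2 h1

lemma rel_total (flip : Bool) (x y : Om) : rel flip x y ∨ rel flip y x := by
  cases flip
  · exact ord_total x y
  · exact ord_total y x

lemma rel_congr {flip : Bool} {n : ℕ} {x y x' y' : Om} (h : Teq n x y) (h' : Teq n x' y')
    (hx : res n x = res n x') (hy : res n y = res n y') (ho : rel flip x y) : rel flip x' y' := by
  rw [res_eq_iff] at hx hy
  cases flip
  · exact ord_congr h h' hx hy ho
  · exact ord_congr h.symm h'.symm hy hx ho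

/-- the triangular algebra -/
def TT (flip : Bool) : Subalgebra ℂ AA where
  carrier := {a | ∀ x y, ¬ rel flip x y → ent (a : B) x y = 0}
  mul_mem' := fun {a b} ha hb x y hxy => by
    have h1 := hasSum_ent_mul (a : B) (b : B) x y
    have h2 : ∀ z, ent (b : B) z y * ent (a : B) x z = 0 := by
      intro z
      by_cases hz : rel flip x z
      · rw [hb z y fun h => hxy (rel_trans hz h), zero_mul]
      · rw [ha x z hz, mul_zero]
    simp_rw [h2] at h1
    exact h1.unique hasSum_zero
  add_mem' := fun {a b} ha hb x y hxy => by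
    show ent ((a : B) + (b : B)) x y = 0
    rw [ent_add, ha x y hxy, hb x y hxy, add_zero]
  algebraMap_mem' := fun r x y hxy => by
    classical
    have h1 : ((algebraMap ℂ AA r : AA) : B) = r • (1 : B) := Algebra.algebraMap_eq_smul_one r
    rw [h1, ent_smul, ent_one, if_neg, mul_zero]
    rintro rfl
    exact hxy (rel_refl flip x)

lemma mem_TT {flip : Bool} {a : AA} :
    a ∈ TT flip ↔ ∀ x y, ¬ rel flip x y → ent (a : B) x y = 0 := Iff.rfl

lemma continuous_ent_left (x y : Om) : Continuous fun a : AA => ent (a : B) x y := by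
  have h1 : (fun a : AA => ent (a : B) x y) = fun a : AA => coordL x ((a : B) (del y)) := by
    funext a
    rw [coordL_apply]
    rfl
  rw [h1]
  exact (coordL x).continuous.comp
    ((ContinuousLinearMap.apply ℂ H (del y)).continuous.comp continuous_subtype_val)

lemma isClosed_TT (flip : Bool) : IsClosed (TT flip : Set AA) := by
  have h : (TT flip : Set AA) = ⋂ (x : Om) (y : Om) (_ : ¬ rel flip x y),
      {a : AA | ent (a : B) x y = 0} := by
    ext a
    simp only [Set.mem_iInter, SetLike.mem_coe, mem_TT]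
    rfl
  rw [h]
  refine isClosed_iInter fun x => isClosed_iInter fun y => isClosed_iInter fun _ => ?_
  exact isClosed_eq (continuous_ent_left x y) continuous_const

/-- the diagonal -/
abbrev DD (flip : Bool) : StarSubalgebra ℂ AA := diag (TT flip)

lemma mem_DD {flip : Bool} {a : AA} : a ∈ DD flip ↔ IsDiag (a : B) := by
  constructor
  · rintro ⟨h1, h2⟩ x y hxy
    by_cases h : rel flip x y
    · have h3 : ¬ rel flip y x := fun h' => hxy (rel_antisymm h h')
      have h4 := h2 y x h3
      have h5 : ((star a : AA) : B) = star (a : B) := rfl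
      rw [h5, ent_star] at h4
      simpa using h4
    · exact h1 x y h
  · intro h
    refine ⟨fun x y hxy => h x y ?_, fun x y hxy => ?_⟩
    · rintro rfl
      exact hxy (rel_refl flip x)
    · have h5 : ((star a : AA) : B) = star (a : B) := rfl
      rw [h5, ent_star, h y x, map_zero]
      rintro rfl
      exact hxy (rel_refl flip y)

/-- the projection onto a cylinder -/
def prj (n : ℕ) (i : X n) : AA := piA n (Matrix.single i i 1)

open Classical in
lemma ent_prj (n : ℕ) (i : X n) (x y : Om) :
    ent (prj n i : B) x y = if x = y ∧ res n x = i then 1 else 0 := by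
  rw [prj, coe_piA, ent_pif]
  by_cases h : x = y
  · subst h
    rw [if_pos (Teq.refl n x)]
    by_cases h2 : res n x = i
    · rw [if_pos ⟨rfl, h2⟩, h2, Matrix.single_apply_same]
    · rw [if_neg fun h3 => h2 h3.2, Matrix.single_apply_of_ne]
      exact fun h3 => h2 h3.1.symm
  · rw [if_neg (show ¬ (x = y ∧ res n x = i) from fun h2 => h h2.1)]
    by_cases h2 : Teq n x y
    · rw [if_pos h2, Matrix.single_apply_of_ne]
      rintro ⟨h3, h4⟩
      exact h (eq_of_res_of_Teq (h3.symm.trans h4) h2)
    · rw [if_neg h2]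

lemma isDiag_prj (n : ℕ) (i : X n) : IsDiag (prj n i : B) := by
  classical
  intro x y hxy
  rw [ent_prj, if_neg fun h => hxy h.1]

lemma prj_mem_DD (flip : Bool) (n : ℕ) (i : X n) : prj n i ∈ DD flip :=
  mem_DD.mpr (isDiag_prj n i)

lemma prj_mem_FF (n : ℕ) (i : X n) : prj n i ∈ FF n := ⟨_, rfl⟩

lemma isMasa (flip : Bool) : IsMasa FF (DD flip) where
  comm := fun a ha b hb => by
    rw [mem_DD] at ha hb
    refine Subtype.ext (ent_ext fun x y => ?_)
    show ent ((a : B) * (b : B)) x y = ent ((b : B) * (a : B)) x y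
    rw [ha.ent_mul, hb.ent_mul]
    by_cases h : x = y
    · subst h
      rw [mul_comm]
    · rw [ha x y h, hb x y h, mul_zero, mul_zero]
  maximal := fun n a ha hc => by
    classical
    obtain ⟨α, hα⟩ := mem_FF.mp ha
    rw [mem_DD]
    intro x y hxy
    have h1 := hc _ (prj_mem_DD flip n (res n y)) (prj_mem_FF n (res n y))
    have h2 := congrArg (fun c : AA => ent (c : B) x y) h1
    have h3 : ent ((a * prj n (res n y) : AA) : B) x y = ent (a : B) x y := by
      show ent ((a : B) * (prj n (res n y) : B)) x y = _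
      rw [(isDiag_prj n (res n y)).ent_mul', ent_prj, if_pos ⟨rfl, rfl⟩, mul_one]
    have h4 : ent ((prj n (res n y) * a : AA) : B) x y
        = (if res n x = res n y then 1 else 0) * ent (a : B) x y := by
      show ent ((prj n (res n y) : B) * (a : B)) x y = _
      rw [(isDiag_prj n (res n y)).ent_mul, ent_prj]
      simp
    simp only [h3, h4] at h2
    by_cases h5 : res n x = res n y
    · rw [hα, ent_pif, if_neg]
      exact fun h6 => hxy (eq_of_res_of_Teq h5 h6)
    · rw [h2, if_neg h5, zero_mul]

lemma isTAF (flip : Bool) : IsTAF FF (TT flip) where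
  closed := isClosed_TT flip
  masa := isMasa flip

lemma isStronglyMaximal (flip : Bool) : IsStronglyMaximal (TT flip) := by
  classical
  rw [IsStronglyMaximal, ← Set.univ_subset_iff, ← FF_dense]
  refine closure_mono fun c hc => ?_
  obtain ⟨n, hn⟩ := Set.mem_iUnion.mp hc
  obtain ⟨α, hα⟩ := mem_FF.mp hn
  let U : Matrix (X n) (X n) ℂ := fun i j => if rel flip (ins n i 0) (ins n j 0) then α i j else 0
  let L : Matrix (X n) (X n) ℂ := fun i j => if rel flip (ins n i 0) (ins n j 0) then 0 else α i j
  have hkey : ∀ x y : Om, Teq n x y →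
      (rel flip (ins n (res n x) 0) (ins n (res n y) 0) ↔ rel flip x y) := by
    intro x y h
    have h' : Teq n (ins n (res n x) 0) (ins n (res n y) 0) :=
      (ins_Teq n _ 0).trans (ins_Teq n _ 0).symm
    exact ⟨rel_congr h' h (res_ins n _ 0) (res_ins n _ 0),
      rel_congr h h' (res_ins n _ 0).symm (res_ins n _ 0).symm⟩
  refine ⟨piA n U, ?_, star (piA n L), ?_, ?_⟩
  · intro x y hxy
    rw [coe_piA, ent_pif]
    by_cases h : Teq n x y
    · rw [if_pos h]
      show (if _ then _ else _) = _
      rw [if_neg fun h' => hxy ((hkey x y h).mp h')]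
    · rw [if_neg h]
  · intro x y hxy
    show ent (star (pif n L)) x y = 0
    rw [ent_star, ent_pif]
    by_cases h : Teq n y x
    · rw [if_pos h]
      show conj (if _ then _ else _) = _
      rw [if_pos, map_zero]
      exact (hkey y x h).mpr ((rel_total flip x y).resolve_left hxy)
    · rw [if_neg h, map_zero]
  · refine Subtype.ext (ent_ext fun x y => ?_)
    rw [star_star]
    show ent (c : B) x y = ent (pif n U + pif n L) x y
    rw [ent_add, hα, ent_pif, ent_pif, ent_pif]
    by_cases h : Teq n x y
    · rw [if_pos h, if_pos h, if_pos h]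
      show _ = (if _ then _ else _) + (if _ then _ else _)
      split_ifs <;> simp
    · rw [if_neg h, if_neg h, if_neg h, add_zero]

end

end Pool.Agent.Lib.MP_6e0de5_an
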