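import Mathlib

/-!
Combinatorics of the path space `Om = ∏ n, Fin (2 ^ (n + 2))`: the order compares first the
position of the first zero coordinate, and then lexicographically.
-/

namespace Pool.Agent.Lib.MP_6e0de5_an

/-- the alphabet at level `n` -/
abbrev C (n : ℕ) : Type := Fin (2 ^ (n + 2))

/-- the path space -/
abbrev Om : Type := ∀ n, C n

/-- the position of the first zero -/
noncomputable def fz (x : Om) : ℕ∞ := ⨅ (k : ℕ) (_ : x k = 0), (k : ℕ∞)

/-- the (total) order: first zero, then lexicographic -/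
def ord (x y : Om) : Prop := fz x < fz y ∨ (fz x = fz y ∧ toLex x ≤ toLex y)

/-- equal from level `n` on -/
def Teq (n : ℕ) (x y : Om) : Prop := ∀ k, n ≤ k → x k = y k

/-- tail equivalent and ordered -/
def PP (x y : Om) : Prop := (∃ n, Teq n x y) ∧ ord x y

/-- replace the first `n` coordinates of `x` by those of `p` -/
def glue (n : ℕ) (p x : Om) : Om := fun k => if k < n then p k else x k

lemma glue_lt {n : ℕ} {p x : Om} {k : ℕ} (h : k < n) : glue n p x k = p k := by
  simp [glue, h]

lemma glue_ge {n : ℕ} {p x : Om} {k : ℕ} (h : n ≤ k) : glue n p x k = x k := by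
  simp [glue, not_lt.mpr h]

lemma fz_le {x : Om} {k : ℕ} (h : x k = 0) : fz x ≤ k := iInf₂_le k h

lemma lt_fz_iff {x : Om} {k : ℕ} : (k : ℕ∞) < fz x ↔ ∀ j ≤ k, x j ≠ 0 := by
  constructor
  · intro h j hj h0
    exact absurd (fz_le h0) (not_le.mpr (lt_of_le_of_lt (by exact_mod_cast hj) h))
  · intro h
    have h1 : ((k + 1 : ℕ) : ℕ∞) ≤ fz x := by
      refine le_iInf₂ fun j hj => ?_
      have : k + 1 ≤ j := by
        by_contra hc
        exact h j (by omega) hj
      exact_mod_cast this
    exact lt_of_lt_of_le (by exact_mod_cast Nat.lt_succ_self k) h1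

lemma fz_lt_iff {x y : Om} : fz x < fz y ↔ ∃ k, x k = 0 ∧ ∀ j ≤ k, y j ≠ 0 := by
  constructor
  · intro h
    have h' := h
    rw [fz] at h'
    simp only [iInf_lt_iff] at h'
    obtain ⟨k, hk, hlt⟩ := h'
    exact ⟨k, hk, lt_fz_iff.mp hlt⟩
  · rintro ⟨k, hk, hj⟩
    exact lt_of_le_of_lt (fz_le hk) (lt_fz_iff.mpr hj)

lemma fz_eq_top_iff {x : Om} : fz x = ⊤ ↔ ∀ k, x k ≠ 0 := by
  constructor
  · intro h k hk
    have := fz_le hk
    rw [h] at this
    simp at this
  · intro h
    rw [fz]
    simp only [iInf_eq_top]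
    intro k hk
    exact absurd hk (h k)

lemma lex_lt_iff {x y : Om} : toLex x < toLex y ↔ ∃ i, (∀ j < i, x j = y j) ∧ x i < y i :=
  Iff.rfl

lemma ord_refl (x : Om) : ord x x := Or.inr ⟨rfl, le_rfl⟩

lemma ord_trans {x y z : Om} (h1 : ord x y) (h2 : ord y z) : ord x z := by
  rcases h1 with h1 | ⟨h1, h1'⟩ <;> rcases h2 with h2 | ⟨h2, h2'⟩
  · exact Or.inl (h1.trans h2)
  · exact Or.inl (h2 ▸ h1)
  · exact Or.inl (h1 ▸ h2)
  · exact Or.inr ⟨h1.trans h2, h1'.trans h2'⟩

lemma ord_antisymm {x y : Om} (h1 : ord x y) (h2 : ord y x) : x = y := by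
  rcases h1 with h1 | ⟨h1, h1'⟩ <;> rcases h2 with h2 | ⟨h2, h2'⟩
  · exact absurd h2 (not_lt.mpr h1.le)
  · exact absurd h2 h1.ne'
  · exact absurd h1 h2.ne'
  · exact toLex.injective (le_antisymm h1' h2')

lemma ord_total (x y : Om) : ord x y ∨ ord y x := by
  rcases lt_trichotomy (fz x) (fz y) with h | h | h
  · exact Or.inl (Or.inl h)
  · rcases le_total (toLex x) (toLex y) with h' | h'
    · exact Or.inl (Or.inr ⟨h, h'⟩)
    · exact Or.inr (Or.inr ⟨h.symm, h'⟩)
  · exact Or.inr (Or.inl h)

lemma ord.fz_le {x y : Om} (h : ord x y) : fz x ≤ fz y := by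
  rcases h with h | ⟨h, _⟩
  · exact h.le
  · exact h.le

lemma fz_lt_congr {n : ℕ} {x y x' y' : Om} (h : Teq n x y)
    (hx : ∀ k < n, x k = x' k) (hy : ∀ k < n, y k = y' k) (hlt : fz x < fz y) :
    fz x' < fz y' := by
  rw [fz_lt_iff] at hlt ⊢
  obtain ⟨k, hk, hj⟩ := hlt
  have hkn : k < n := by
    by_contra hc
    exact hj k le_rfl ((h k (not_lt.mp hc)) ▸ hk)
  exact ⟨k, (hx k hkn) ▸ hk, fun j hjk => (hy j (lt_of_le_of_lt hjk hkn)) ▸ hj j hjk⟩

lemma ord_congr {n : ℕ} {x y x' y' : Om} (h : Teq n x y) (h' : Teq n x' y')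
    (hx : ∀ k < n, x k = x' k) (hy : ∀ k < n, y k = y' k) (ho : ord x y) : ord x' y' := by
  rcases ho with ho | ⟨ho, hl⟩
  · exact Or.inl (fz_lt_congr h hx hy ho)
  · right
    constructor
    · rcases lt_trichotomy (fz x') (fz y') with h1 | h1 | h1
      · exact absurd (fz_lt_congr h' (fun k hk => (hx k hk).symm) (fun k hk => (hy k hk).symm) h1)
          (not_lt.mpr ho.ge)
      · exact h1
      · exact absurd (fz_lt_congr (fun k hk => (h' k hk).symm) (fun k hk => (hy k hk).symm)
          (fun k hk => (hx k hk).symm) h1) (not_lt.mpr ho.le)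
    · rcases hl.lt_or_eq with hl | hl
      · replace hl := lex_lt_iff.mp hl
        obtain ⟨i, hi, hlt⟩ := hl
        have hin : i < n := by
          by_contra hc
          exact absurd (h i (not_lt.mp hc)) hlt.ne
        refine le_of_lt (lex_lt_iff.mpr ⟨i, fun j hj => ?_, ?_⟩)
        · rw [← hx j (hj.trans hin), ← hy j (hj.trans hin)]
          exact hi j hj
        · rw [← hx i hin, ← hy i hin]
          exact hlt
      · have hxy : x = y := toLex.injective hl
        have : x' = y' := by
          funext k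
          by_cases hk : k < n
          · rw [← hx k hk, ← hy k hk, hxy]
          · exact h' k (not_lt.mp hk)
        rw [this]

lemma Teq.mono {n m : ℕ} (hnm : n ≤ m) {x y : Om} (h : Teq n x y) : Teq m x y :=
  fun k hk => h k (hnm.trans hk)

lemma Teq.symm {n : ℕ} {x y : Om} (h : Teq n x y) : Teq n y x := fun k hk => (h k hk).symm

lemma Teq.trans {n : ℕ} {x y z : Om} (h : Teq n x y) (h' : Teq n y z) : Teq n x z :=
  fun k hk => (h k hk).trans (h' k hk)

lemma PP_refl (x : Om) : PP x x := ⟨⟨0, fun _ _ => rfl⟩, ord_refl x⟩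

lemma PP_trans {x y z : Om} (h1 : PP x y) (h2 : PP y z) : PP x z := by
  obtain ⟨⟨n, hn⟩, h1⟩ := h1
  obtain ⟨⟨m, hm⟩, h2⟩ := h2
  exact ⟨⟨max n m, (hn.mono (le_max_left _ _)).trans (hm.mono (le_max_right _ _))⟩,
    ord_trans h1 h2⟩

/-- cylinders -/
def cyl (n : ℕ) (x : Om) : Set Om := {z | ∀ k < n, z k = x k}

lemma mem_cyl_self (n : ℕ) (x : Om) : x ∈ cyl n x := fun _ _ => rfl

lemma cyl_anti {n m : ℕ} (h : n ≤ m) (x : Om) : cyl m x ⊆ cyl n x :=
  fun _ hz k hk => hz k (hk.trans_le h)

/-- decreasing hull of a cylinder -/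
def dn (n : ℕ) (x : Om) : Set Om := {z | ∃ y ∈ cyl n x, PP z y}

/-- increasing hull of a cylinder -/
def up (n : ℕ) (x : Om) : Set Om := {z | ∃ y ∈ cyl n x, PP y z}

def EE (x : Om) : Set Om := ⋂ n, dn n x

def JJ (x : Om) : Set Om := ⋂ n, up n x

lemma isClopen_of_dep {S : Set Om} (N : ℕ)
    (h : ∀ z z' : Om, (∀ j < N, z j = z' j) → z ∈ S → z' ∈ S) : IsClopen S := by
  have key : ∀ S : Set Om, (∀ z z' : Om, (∀ j < N, z j = z' j) → z ∈ S → z' ∈ S) → IsOpen S := by
    intro S hS
    rw [isOpen_iff_mem_nhds]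
    intro z hz
    have : (Set.pi (Finset.range N : Set ℕ) fun k => ({z k} : Set (C k))) ∈ nhds z := by
      refine set_pi_mem_nhds (Finset.finite_toSet _) fun k _ => ?_
      exact (isOpen_discrete _).mem_nhds rfl
    refine Filter.mem_of_superset this fun z' hz' => ?_
    refine hS z z' (fun j hj => ?_) hz
    have := hz' j (by simpa using hj)
    exact (Set.mem_singleton_iff.mp this).symm
  refine ⟨⟨key _ fun z z' hzz' hz hz' => hz (h z' z (fun j hj => (hzz' j hj).symm) hz')⟩, key S h⟩

lemma isClopen_cyl (n : ℕ) (x : Om) : IsClopen (cyl n x) :=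
  isClopen_of_dep n fun z z' h hz k hk => (h k hk) ▸ hz k hk

/-- case 1: below a point with a zero, clopen increasing sets separate -/
lemma separate {x y : Om} (hxy : PP x y) (hne : x ≠ y) (hx : ∃ k, x k = 0) :
    ∃ U : Set Om, IsClopen U ∧ (∀ z z', z ∈ U → PP z z' → z' ∈ U) ∧ y ∈ U ∧ x ∉ U := by
  classical
  obtain ⟨-, ho⟩ := hxy
  set k := Nat.find hx with hk
  have hxk : x k = 0 := Nat.find_spec hx
  have hmin : ∀ j < k, x j ≠ 0 := fun j hj => Nat.find_min hx hj
  rcases ho with ho | ⟨ho, hl⟩
  · refine ⟨{z | ∀ j ≤ k, z j ≠ 0}, ?_, ?_, ?_, ?_⟩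
    · exact isClopen_of_dep (k + 1) fun z z' h hz j hj => (h j (by omega)) ▸ hz j hj
    · intro z z' hz hzz'
      have h1 : (k : ℕ∞) < fz z := lt_fz_iff.mpr hz
      exact lt_fz_iff.mp (h1.trans_le hzz'.2.fz_le)
    · rw [fz_lt_iff] at ho
      obtain ⟨k', hk', hj'⟩ := ho
      have : k ≤ k' := Nat.find_le hk'
      exact fun j hj => hj' j (hj.trans this)
    · intro h
      exact h k le_rfl hxk
  · have hlt : toLex x < toLex y := lt_of_le_of_ne hl fun h => hne (toLex.injective h)
    replace hlt := lex_lt_iff.mp hlt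
    obtain ⟨i, hi, hilt⟩ := hlt
    set N := max i k + 1 with hN
    set w : Om := glue N y 0 with hw
    have hfx : fz x = k := by
      refine le_antisymm (fz_le hxk) ?_
      by_contra hc
      rw [not_le, fz] at hc
      simp only [iInf_lt_iff] at hc
      obtain ⟨j, hj, hjk⟩ := hc
      exact hmin j (by exact_mod_cast hjk) hj
    -- y also has its first zero at k
    have hfy : fz y = k := ho ▸ hfx
    have hyk : y k = 0 := by
      by_contra hc
      have : (k : ℕ∞) < fz y := by
        rw [lt_fz_iff]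
        intro j hj
        rcases hj.lt_or_eq with hj | hj
        · intro h0
          have := fz_le h0
          rw [hfy] at this
          exact absurd (by exact_mod_cast this) (not_le.mpr hj)
        · rw [hj]; exact hc
      rw [hfy] at this
      exact lt_irrefl _ this
    have hfw : fz w = k := by
      refine le_antisymm (fz_le ?_) ?_
      · rw [hw, glue_lt (by omega)]; exact hyk
      · refine le_iInf₂ fun j hj => ?_
        by_contra hc
        have hjk : j < k := by
          rw [not_le] at hc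
          exact_mod_cast hc
        rw [hw, glue_lt (by omega)] at hj
        have := fz_le hj
        rw [hfy] at this
        exact absurd (by exact_mod_cast this) (not_le.mpr hjk)
    have hwmin : ∀ z : Om, (∀ j < N, z j = y j) → toLex w ≤ toLex z := by
      intro z hz
      by_contra hc
      replace hc := lex_lt_iff.mp (not_le.mp hc)
      obtain ⟨j, hj, hjlt⟩ := hc
      by_cases hjN : j < N
      · rw [hw, glue_lt hjN, hz j hjN] at hjlt
        exact lt_irrefl _ hjlt
      · rw [hw, glue_ge (not_lt.mp hjN)] at hjlt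
        exact absurd hjlt (Fin.not_lt_zero _)
    refine ⟨{z | ord w z}, ?_, ?_, ?_, ?_⟩
    · refine isClopen_of_dep N fun z z' h hz => ?_
      rcases hz with hz | ⟨hz, hz'⟩
      · left
        rw [hfw] at hz ⊢
        rw [lt_fz_iff] at hz ⊢
        intro j hj
        rw [← h j (by omega)]
        exact hz j hj
      · right
        rw [hfw] at hz
        have hfz' : fz z' = k := by
          refine le_antisymm ?_ ?_
          · by_contra hc
            rw [not_le, lt_fz_iff] at hc
            have : (k : ℕ∞) < fz z := by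
              rw [lt_fz_iff]
              intro j hj
              rw [h j (by omega)]
              exact hc j hj
            rw [← hz] at this
            exact lt_irrefl _ this
          · refine le_iInf₂ fun j hj => ?_
            by_contra hc
            have hjk : j < k := by
              rw [not_le] at hc
              exact_mod_cast hc
            rw [← h j (by omega)] at hj
            have := fz_le hj
            rw [← hz] at this
            exact absurd (by exact_mod_cast this) (not_le.mpr hjk)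
        refine ⟨by rw [hfw, hfz'], ?_⟩
        rcases hz'.lt_or_eq with hz' | hz'
        · replace hz := lex_lt_iff.mp hz'
          obtain ⟨j, hj, hjlt⟩ := hz'
          by_cases hjN : j < N
          · refine le_of_lt (lex_lt_iff.mpr ⟨j, fun l hl => ?_, ?_⟩)
            · rw [← h l (hl.trans hjN)]; exact hj l hl
            · rw [← h j hjN]; exact hjlt
          · refine hwmin z' fun l hl => ?_
            have hjl : w l = z l := hj l (by show l < j; omega)
            rw [← h l hl, ← hjl, hw, glue_lt hl]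
        · have hwz : w = z := toLex.injective hz'
          refine hwmin z' fun l hl => ?_
          rw [← h l hl, ← hwz, hw, glue_lt hl]
    · intro z z' hz hzz'
      exact ord_trans hz hzz'.2
    · exact Or.inr ⟨by rw [hfw, hfy], hwmin y fun _ _ => rfl⟩
    · intro h
      rcases h with h | ⟨-, h⟩
      · rw [hfw, hfx] at h
        exact lt_irrefl _ h
      · refine absurd h (not_le.mpr (lex_lt_iff.mpr ⟨i, fun j hj => ?_, ?_⟩))
        · rw [hw, glue_lt (by omega)]; exact hi j hj
        · rw [hw, glue_lt (by omega)]; exact hilt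

lemma EE_mono {x y : Om} (hxy : PP x y) : EE x ⊆ EE y := by
  obtain ⟨⟨n, hn⟩, ho⟩ := hxy
  intro z hz
  refine Set.mem_iInter.mpr fun N => ?_
  obtain ⟨x', hx', hzx'⟩ := Set.mem_iInter.mp hz (max N n)
  refine ⟨glue (max N n) y x', fun k hk => glue_lt (lt_of_lt_of_le hk (le_max_left _ _)),
    PP_trans hzx' ⟨⟨max N n, fun k hk => (glue_ge hk).symm⟩, ?_⟩⟩
  exact ord_congr (hn.mono (le_max_right N n)) (fun k hk => (glue_ge hk).symm)
    (fun k hk => (hx' k hk).symm) (fun k hk => (glue_lt hk).symm) ho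

/-- all coordinates nonzero -/
def NZ : Set Om := {z | ∀ k, z k ≠ 0}

lemma ord_of_NZ {x y : Om} (hx : x ∈ NZ) (h : ord x y) : y ∈ NZ := by
  have : fz x = ⊤ := fz_eq_top_iff.mpr hx
  have h2 := h.fz_le
  rw [this, top_le_iff] at h2
  exact fz_eq_top_iff.mp h2

/-- case 2: a gap between `EE x` and `EE y` -/
lemma gap {x y : Om} (hxy : PP x y) (hne : x ≠ y) (hx : x ∈ NZ) :
    ∃ (N : ℕ) (p : Om), p ∈ NZ ∧ cyl N p ∩ NZ ⊆ EE y ∧ Disjoint (cyl N p ∩ NZ) (EE x) := by
  have hy : y ∈ NZ := ord_of_NZ hx hxy.2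
  obtain ⟨⟨n, hn⟩, ho⟩ := hxy
  have hlt : toLex x < toLex y := by
    rcases ho with ho | ⟨-, ho⟩
    · rw [fz_eq_top_iff.mpr hx] at ho
      exact absurd ho not_top_lt
    · exact lt_of_le_of_ne ho fun h => hne (toLex.injective h)
  replace hlt := lex_lt_iff.mp hlt
  obtain ⟨i, hi, hilt⟩ := hlt
  have hin : i < n := by
    by_contra hc
    exact absurd (hn i (not_lt.mp hc)) hilt.ne
  -- the middle point
  suffices H : ∃ p : Om, p ∈ NZ ∧ ∀ z ∈ cyl (n + 1) p, toLex x < toLex z ∧ toLex z < toLex y by
    obtain ⟨p, hp, H⟩ := H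
    refine ⟨n + 1, p, hp, ?_, ?_⟩
    · rintro z ⟨hz, hznz⟩
      refine Set.mem_iInter.mpr fun M => ?_
      refine ⟨glue M y z, fun k hk => glue_lt hk, ⟨⟨M, fun k hk => (glue_ge hk).symm⟩, ?_⟩⟩
      have hg : glue M y z ∈ NZ := by
        intro k
        by_cases hk : k < M
        · rw [glue_lt hk]; exact hy k
        · rw [glue_ge (not_lt.mp hk)]; exact hznz k
      refine Or.inr ⟨by rw [fz_eq_top_iff.mpr hznz, fz_eq_top_iff.mpr hg], ?_⟩
      have h2 := (H z hz).2
      replace h2 := lex_lt_iff.mp h2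
      obtain ⟨j, hj, hjlt⟩ := h2
      by_cases hjM : j < M
      · refine le_of_lt (lex_lt_iff.mpr ⟨j, fun l hl => ?_, ?_⟩)
        · rw [glue_lt (hl.trans hjM)]; exact hj l hl
        · rw [glue_lt hjM]; exact hjlt
      · have : glue M y z = z := by
          funext k
          by_cases hk : k < M
          · rw [glue_lt hk]; exact (hj k (by omega)).symm
          · rw [glue_ge (not_lt.mp hk)]
        rw [this]
    · rw [Set.disjoint_left]
      rintro z ⟨hz, hznz⟩ hzE
      have h1 := (H z hz).1
      replace h1 := lex_lt_iff.mp h1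
      obtain ⟨j, hj, hjlt⟩ := h1
      obtain ⟨x', hx', -, ho'⟩ := Set.mem_iInter.mp hzE (j + 1)
      have hx'nz := ord_of_NZ hznz ho'
      rcases ho' with ho' | ⟨-, ho'⟩
      · rw [fz_eq_top_iff.mpr hznz] at ho'
        exact absurd ho' not_top_lt
      · refine absurd ho' (not_le.mpr (lex_lt_iff.mpr ⟨j, fun l hl => ?_, ?_⟩))
        · rw [hx' l (by omega)]; exact hj l hl
        · rw [hx' j (by omega)]; exact hjlt
  have hsz : 4 ≤ 2 ^ (n + 2) := by
    have : 2 ^ 2 ≤ 2 ^ (n + 2) := Nat.pow_le_pow_right (by norm_num) (by omega)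
    simpa using this
  by_cases hc : (1 : ℕ) < (y n).val
  · refine ⟨Function.update y n ⟨1, by omega⟩, ?_, ?_⟩
    · intro k
      by_cases hk : k = n
      · subst hk
        rw [Function.update_self]
        intro h
        have := congrArg Fin.val h
        simp at this
      · rw [Function.update_of_ne hk]; exact hy k
    · intro z hz
      have hzn : z n = ⟨1, by omega⟩ := by
        rw [hz n (by omega), Function.update_self]
      have hzk : ∀ k < n, z k = y k := by
        intro k hk
        rw [hz k (by omega), Function.update_of_ne hk.ne]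
      constructor
      · refine lex_lt_iff.mpr ⟨i, fun j hj => ?_, ?_⟩
        · rw [hzk j (hj.trans hin)]; exact hi j hj
        · rw [hzk i hin]; exact hilt
      · refine lex_lt_iff.mpr ⟨n, hzk, ?_⟩
        rw [hzn, Fin.lt_def]
        exact hc
  · have hy1 : (y n).val = 1 := by
      have : (y n).val ≠ 0 := by
        intro h
        exact hy n (Fin.ext (by simpa using h))
      omega
    refine ⟨Function.update x n ⟨2, by omega⟩, ?_, ?_⟩
    · intro k
      by_cases hk : k = n
      · subst hk
        rw [Function.update_self]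
        intro h
        have := congrArg Fin.val h
        simp at this
      · rw [Function.update_of_ne hk]; exact hx k
    · intro z hz
      have hzn : z n = ⟨2, by omega⟩ := by
        rw [hz n (by omega), Function.update_self]
      have hzk : ∀ k < n, z k = x k := by
        intro k hk
        rw [hz k (by omega), Function.update_of_ne hk.ne]
      constructor
      · refine lex_lt_iff.mpr ⟨n, fun j hj => (hzk j hj).symm, ?_⟩
        rw [hzn, hn n le_rfl, Fin.lt_def, hy1]
        norm_num
      · refine lex_lt_iff.mpr ⟨i, fun j hj => ?_, ?_⟩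
        · rw [hzk j (hj.trans hin)]; exact hi j hj
        · rw [hzk i hin]; exact hilt

/-- the largest path -/
def xmax : Om := fun n => ⟨2 ^ (n + 2) - 1, by have : 0 < 2 ^ (n + 2) := by positivity
                                               omega⟩

lemma le_xmax (n : ℕ) (c : C n) : c ≤ xmax n := by
  rw [Fin.le_def]
  have := c.2
  simp only [xmax]
  omega

lemma xmax_NZ : xmax ∈ NZ := by
  intro k h
  have := congrArg Fin.val h
  simp only [xmax, Fin.coe_ofNat_eq_mod, Nat.zero_mod] at this
  have h4 : 2 ^ 2 ≤ 2 ^ (k + 2) := Nat.pow_le_pow_right (by norm_num) (by omega)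
  omega

lemma NZ_sub : NZ ⊆ EE xmax ∩ JJ xmax := by
  intro z hz
  refine ⟨Set.mem_iInter.mpr fun N => ?_, Set.mem_iInter.mpr fun N => ?_⟩
  · refine ⟨glue N xmax z, fun k hk => glue_lt hk, ⟨⟨N, fun k hk => (glue_ge hk).symm⟩, ?_⟩⟩
    have hg : glue N xmax z ∈ NZ := by
      intro k
      by_cases hk : k < N
      · rw [glue_lt hk]; exact xmax_NZ k
      · rw [glue_ge (not_lt.mp hk)]; exact hz k
    refine Or.inr ⟨by rw [fz_eq_top_iff.mpr hz, fz_eq_top_iff.mpr hg], ?_⟩
    by_contra hc
    replace hc := lex_lt_iff.mp (not_le.mp hc)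
    obtain ⟨j, hj, hjlt⟩ := hc
    by_cases hjN : j < N
    · rw [glue_lt hjN] at hjlt
      exact absurd hjlt (not_lt.mpr (le_xmax _ _))
    · rw [glue_ge (not_lt.mp hjN)] at hjlt
      exact lt_irrefl _ hjlt
  · refine ⟨glue (N + 1) (Function.update xmax N 0) z, fun k hk => ?_,
      ⟨⟨N + 1, fun k hk => glue_ge hk⟩, ?_⟩⟩
    · rw [glue_lt (by omega), Function.update_of_ne hk.ne]
    · refine Or.inl (fz_lt_iff.mpr ⟨N, ?_, fun j _ => hz j⟩)
      rw [glue_lt (by omega), Function.update_self]

end Pool.Agent.Lib.MP_6e0de5_an
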