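import Pool.Agent.Lib.MP_6e0de5_an.Comb

/-!
The uniform product measure on the path space.
-/

namespace Pool.Agent.Lib.MP_6e0de5_an

open MeasureTheory

/-- uniform product measure -/
noncomputable def mu0 : Measure Om :=
  Measure.infinitePi (fun n => (PMF.uniformOfFintype (C n)).toMeasure)

instance : IsProbabilityMeasure mu0 := by
  unfold mu0
  infer_instance

lemma unif_singleton (n : ℕ) (c : C n) :
    (PMF.uniformOfFintype (C n)).toMeasure {c} = ((2 : ENNReal) ^ (n + 2))⁻¹ := by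
  rw [PMF.toMeasure_apply_singleton _ _ (MeasurableSet.singleton c), PMF.uniformOfFintype_apply]
  simp

/-- the measure of a cylinder of length `n` -/
noncomputable def kap (n : ℕ) : ENNReal := ∏ k ∈ Finset.range n, ((2 : ENNReal) ^ (k + 2))⁻¹

lemma mu0_cyl (n : ℕ) (x : Om) : mu0 (cyl n x) = kap n := by
  have h : cyl n x = Set.pi (Finset.range n : Finset ℕ) fun k => ({x k} : Set (C k)) := by
    ext z
    simp [cyl, Set.mem_pi]
  rw [h, mu0, Measure.infinitePi_pi _ (fun i _ => MeasurableSet.singleton _), kap]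
  exact Finset.prod_congr rfl fun k _ => unif_singleton k (x k)

lemma mu0_cyl_inter (n k : ℕ) (hk : n ≤ k) (x : Om) :
    mu0 (cyl n x ∩ {z | z k = 0}) = kap n * ((2 : ENNReal) ^ (k + 2))⁻¹ := by
  classical
  have h : cyl n x ∩ {z | z k = 0} = Set.pi (insert k (Finset.range n) : Finset ℕ)
      (fun j => ({Function.update x k 0 j} : Set (C j))) := by
    ext z
    simp only [cyl, Set.mem_inter_iff, Set.mem_ofPred_eq, Finset.coe_insert, Set.insert_pi,
      Set.mem_singleton_iff, Function.update_self, Set.mem_pi, Finset.coe_range, Set.mem_Iio]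
    constructor
    · rintro ⟨h1, h2⟩
      refine ⟨h2, fun j hj => ?_⟩
      rw [Function.update_of_ne (by omega)]
      exact h1 j hj
    · rintro ⟨h1, h2⟩
      refine ⟨fun j hj => ?_, h1⟩
      have := h2 j hj
      rwa [Function.update_of_ne (by omega)] at this
  rw [h, mu0, Measure.infinitePi_pi _ (fun i _ => MeasurableSet.singleton _),
    Finset.prod_insert (by simp [hk]), mul_comm, kap]
  congr 1
  · refine Finset.prod_congr rfl fun j _ => unif_singleton j _
  · exact unif_singleton k _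

lemma kap_ne_zero (n : ℕ) : kap n ≠ 0 := by
  rw [kap, Finset.prod_ne_zero_iff]
  intro k _
  simp

lemma kap_ne_top (n : ℕ) : kap n ≠ ⊤ := by
  rw [← mu0_cyl n 0]
  exact measure_ne_top _ _

lemma tsum_half : ∑' k : ℕ, ((2 : ENNReal) ^ (k + 2))⁻¹ = 2⁻¹ := by
  have h1 : ∀ k : ℕ, ((2 : ENNReal) ^ (k + 2))⁻¹ = (2⁻¹ : ENNReal) ^ k * (2⁻¹ * 2⁻¹) := by
    intro k
    rw [← ENNReal.inv_pow, pow_add, pow_two,
      ENNReal.mul_inv (Or.inl (by positivity)) (Or.inl (ENNReal.pow_ne_top (by norm_num))),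
      ENNReal.mul_inv (Or.inl (by norm_num)) (Or.inl (by norm_num))]
  simp_rw [h1]
  rw [ENNReal.tsum_mul_right, ENNReal.tsum_geometric, ENNReal.one_sub_inv_two, inv_inv,
    ← mul_assoc, ENNReal.mul_inv_cancel (by norm_num) (by norm_num), one_mul]

lemma measurableSet_NZ : MeasurableSet NZ := by
  have : NZ = ⋂ k : ℕ, {z : Om | z k ≠ 0} := by
    ext z
    simp [NZ]
  rw [this]
  refine MeasurableSet.iInter fun k => ?_
  exact (measurable_pi_apply k) (MeasurableSet.of_discrete (s := {c : C k | c ≠ 0}))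

lemma pos_cyl_NZ (N : ℕ) (p : Om) (hp : p ∈ NZ) : mu0 (cyl N p ∩ NZ) ≠ 0 := by
  intro h0
  have h1 : cyl N p ⊆ (cyl N p ∩ NZ) ∪ ⋃ k : ℕ, (cyl N p ∩ {z | N ≤ k ∧ z k = 0}) := by
    intro z hz
    by_cases hzn : z ∈ NZ
    · exact Or.inl ⟨hz, hzn⟩
    · right
      simp only [NZ, Set.mem_ofPred_eq, not_forall, not_not] at hzn
      obtain ⟨k, hk⟩ := hzn
      refine Set.mem_iUnion.mpr ⟨k, hz, ?_, hk⟩
      by_contra hc
      rw [not_le] at hc
      exact hp k ((hz k hc) ▸ hk)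
  have h2 : kap N ≤ kap N * 2⁻¹ := by
    calc kap N = mu0 (cyl N p) := (mu0_cyl N p).symm
      _ ≤ mu0 ((cyl N p ∩ NZ) ∪ ⋃ k : ℕ, (cyl N p ∩ {z | N ≤ k ∧ z k = 0})) := measure_mono h1
      _ ≤ mu0 (cyl N p ∩ NZ) + mu0 (⋃ k : ℕ, (cyl N p ∩ {z | N ≤ k ∧ z k = 0})) :=
          measure_union_le _ _
      _ ≤ 0 + ∑' k : ℕ, mu0 (cyl N p ∩ {z | N ≤ k ∧ z k = 0}) := by
          rw [h0]
          gcongr
          exact measure_iUnion_le _
      _ ≤ ∑' k : ℕ, kap N * ((2 : ENNReal) ^ (k + 2))⁻¹ := by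
          rw [zero_add]
          refine ENNReal.tsum_le_tsum fun k => ?_
          by_cases hk : N ≤ k
          · rw [← mu0_cyl_inter N k hk p]
            refine measure_mono fun z hz => ⟨hz.1, hz.2.2⟩
          · have : (cyl N p ∩ {z | N ≤ k ∧ z k = 0}) = ∅ := by
              ext z
              simp [hk]
            rw [this, measure_empty]
            exact zero_le
      _ = kap N * 2⁻¹ := by rw [ENNReal.tsum_mul_left, tsum_half]
  have h3 : kap N * 2⁻¹ < kap N := by
    have := ENNReal.half_lt_self (kap_ne_zero N) (kap_ne_top N)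
    rwa [ENNReal.div_eq_inv_mul, mul_comm] at this
  exact absurd h2 (not_le.mpr h3)

lemma pos_NZ : mu0 NZ ≠ 0 := by
  have := pos_cyl_NZ 0 xmax xmax_NZ
  have h : cyl 0 xmax ∩ NZ = NZ := by
    ext z
    simp [cyl]
  rwa [h] at this

/-- case 2: strict increase of the measure -/
lemma EE_lt {x y : Om} (hxy : PP x y) (hne : x ≠ y) (hx : x ∈ NZ) : mu0 (EE x) < mu0 (EE y) := by
  obtain ⟨N, p, hp, hsub, hdis⟩ := gap hxy hne hx
  have hm : MeasurableSet (cyl N p ∩ NZ) := (isClopen_cyl N p).isOpen.measurableSet.inter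
    measurableSet_NZ
  have h1 : mu0 (EE x) + mu0 (cyl N p ∩ NZ) ≤ mu0 (EE y) := by
    rw [← measure_union hdis.symm hm]
    exact measure_mono (Set.union_subset (EE_mono hxy) hsub)
  refine lt_of_lt_of_le ?_ h1
  exact ENNReal.lt_add_right (measure_ne_top _ _) (pos_cyl_NZ N p hp)

lemma pos_EE_JJ : mu0 (EE xmax ∩ JJ xmax) ≠ 0 := by
  intro h
  exact pos_NZ (measure_mono_null NZ_sub h)

end Pool.Agent.Lib.MP_6e0de5_an
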