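import Pool.Agent.Lib.MP_6e0de5_an.Ord
import Pool.Agent.Lib.MP_6e0de5_an.Meas

/-!
The sets `E_x` and `J_x` on the spectrum, and the trace.
-/

namespace Pool.Agent.Lib.MP_6e0de5_an

open MeasureTheory
open scoped ComplexConjugate InnerProductSpace

noncomputable section

variable (flip : Bool)

/-- the clopen set of paths of a projection -/
def psupp (e : DD flip) : Set Om := {z | ev flip z ∈ supp e}

lemma mem_psupp {e : DD flip} {z : Om} : z ∈ psupp flip e ↔ ent ((e : AA) : B) z z = 1 := Iff.rfl

lemma isClosed_psupp (e : DD flip) : IsClosed (psupp flip e) :=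
  isClosed_eq (continuous_ent (e : AA)) continuous_const

lemma isOpen_psupp {e : DD flip} (he : IsStarProjection e) : IsOpen (psupp flip e) := by
  have h : psupp flip e = {z | ent ((e : AA) : B) z z ≠ 0} := by
    ext z
    rw [mem_psupp]
    constructor
    · intro h
      show _ ≠ _
      rw [h]
      exact one_ne_zero
    · intro h
      have h1 : ent ((e : AA) : B) z z * ent ((e : AA) : B) z z = ent ((e : AA) : B) z z := by
        have h2 := (mem_DD.mp e.2).ent_mul (b := ((e : AA) : B)) z z
        rw [← h2]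
        exact congrArg (fun d : DD flip => ent ((d : AA) : B) z z) he.isIdempotentElem
      exact mul_left_cancel₀ (show ent ((e : AA) : B) z z ≠ 0 from h) (by rw [h1, mul_one])
  rw [h]
  exact isOpen_ne_fun (continuous_ent (e : AA)) continuous_const

lemma psupp_anti {e f : DD flip} (h : f * e = f) : psupp flip f ⊆ psupp flip e := by
  intro z hz
  rw [mem_psupp] at hz ⊢
  have h1 : ent ((f : AA) : B) z z * ent ((e : AA) : B) z z = ent ((f : AA) : B) z z := by
    rw [← (mem_DD.mp f.2).ent_mul (b := ((e : AA) : B)) z z]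
    exact congrArg (fun d : DD flip => ent ((d : AA) : B) z z) h
  rw [hz, one_mul] at h1
  exact h1

lemma psupp_inter {e : ℕ → DD flip} {x : Om} (he : Shrinks e (ev flip x)) :
    ⋂ n, psupp flip (e n) = {x} := by
  ext z
  rw [Set.mem_iInter, Set.mem_singleton_iff]
  have h := he.inter
  constructor
  · intro hz
    have h1 : ev flip z ∈ ⋂ n, supp (e n) := Set.mem_iInter.mpr hz
    rw [h, Set.mem_singleton_iff] at h1
    exact ev_injective flip h1
  · rintro rfl n
    have h1 : ev flip z ∈ ⋂ n, supp (e n) := by rw [h]; rfl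
    exact Set.mem_iInter.mp h1 n

lemma psupp_sub_cyl {e : ℕ → DD flip} {x : Om} (he : Shrinks e (ev flip x)) (N : ℕ) :
    ∃ n, psupp flip (e n) ⊆ cyl N x := by
  by_contra hc
  push Not at hc
  have h1 : (⋂ n, (psupp flip (e n) ∩ (cyl N x)ᶜ)).Nonempty := by
    refine IsCompact.nonempty_iInter_of_sequence_nonempty_isCompact_isClosed _
      (fun n => ?_) (fun n => ?_) ?_ (fun n => ?_)
    · exact Set.inter_subset_inter_left _ (psupp_anti flip (he.anti n))
    · obtain ⟨z, hz, hz'⟩ := Set.not_subset.mp (hc n)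
      exact ⟨z, hz, hz'⟩
    · exact ((isClosed_psupp flip (e 0)).inter (isClopen_cyl N x).isOpen.isClosed_compl).isCompact
    · exact (isClosed_psupp flip (e n)).inter (isClopen_cyl N x).isOpen.isClosed_compl
  obtain ⟨z, hz⟩ := h1
  rw [Set.mem_iInter] at hz
  have h2 : z ∈ ⋂ n, psupp flip (e n) := Set.mem_iInter.mpr fun n => (hz n).1
  rw [psupp_inter flip he, Set.mem_singleton_iff] at h2
  exact (hz 0).2 (h2 ▸ mem_cyl_self N x)

lemma cyl_sub_psupp {e : ℕ → DD flip} {x : Om} (he : Shrinks e (ev flip x)) (n : ℕ) :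
    ∃ N, cyl N x ⊆ psupp flip (e n) := by
  have hx : x ∈ psupp flip (e n) := by
    have h2 : x ∈ ⋂ n, psupp flip (e n) := by rw [psupp_inter flip he]; rfl
    exact Set.mem_iInter.mp h2 n
  have hopen := isOpen_psupp flip (he.proj n)
  by_contra hc
  push Not at hc
  have h1 : (⋂ N, (cyl N x ∩ (psupp flip (e n))ᶜ)).Nonempty := by
    refine IsCompact.nonempty_iInter_of_sequence_nonempty_isCompact_isClosed _
      (fun N => ?_) (fun N => ?_) ?_ (fun N => ?_)
    · exact Set.inter_subset_inter_left _ (cyl_anti (Nat.le_succ N) x)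
    · obtain ⟨z, hz, hz'⟩ := Set.not_subset.mp (hc N)
      exact ⟨z, hz, hz'⟩
    · exact ((isClopen_cyl 0 x).isClosed.inter hopen.isClosed_compl).isCompact
    · exact (isClopen_cyl N x).isClosed.inter hopen.isClosed_compl
  obtain ⟨z, hz⟩ := h1
  rw [Set.mem_iInter] at hz
  have hzx : z = x := funext fun k => (hz (k + 1)).1 k (Nat.lt_succ_self k)
  exact (hz 0).2 (hzx ▸ hx)

lemma preimage_Eset {e : ℕ → DD flip} {x : Om} (he : Shrinks e (ev flip x)) :
    (ev flip) ⁻¹' (Eset flip e) = EE x := by
  ext z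
  have hkey : ∀ n, ev flip z ∈ ⋂₀ {E | IsDecreasing flip (TT flip) E ∧ supp (e n) ⊆ E} ↔
      ∃ y ∈ psupp flip (e n), PP z y := by
    intro n
    constructor
    · intro h
      have h1 := Set.mem_sInter.mp h {w | ∃ y ∈ psupp flip (e n), Le flip (TT flip) w (ev flip y)} ?_
      · obtain ⟨y, hy, hzy⟩ := h1
        exact ⟨y, hy, (Le_iff flip z y).mp hzy⟩
      · constructor
        · intro a b hb hab
          obtain ⟨a', rfl⟩ := ev_surjective flip a
          obtain ⟨b', rfl⟩ := ev_surjective flip b
          obtain ⟨y, hy, hby⟩ := hb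
          exact ⟨y, hy, (Le_iff flip _ _).mpr (PP_trans ((Le_iff flip _ _).mp hab)
            ((Le_iff flip _ _).mp hby))⟩
        · intro a ha
          obtain ⟨a', rfl⟩ := ev_surjective flip a
          exact ⟨a', ha, (Le_iff flip _ _).mpr (PP_refl a')⟩
    · rintro ⟨y, hy, hzy⟩
      refine Set.mem_sInter.mpr fun E hE => ?_
      exact hE.1 (ev flip z) (ev flip y) (hE.2 hy) ((Le_iff flip z y).mpr hzy)
  show ev flip z ∈ ⋂ n, ⋂₀ {E | IsDecreasing flip (TT flip) E ∧ supp (e n) ⊆ E} ↔ _
  rw [Set.mem_iInter, EE, Set.mem_iInter]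
  simp_rw [hkey]
  constructor
  · intro h N
    obtain ⟨n, hn⟩ := psupp_sub_cyl flip he N
    obtain ⟨y, hy, hzy⟩ := h n
    exact ⟨y, hn hy, hzy⟩
  · intro h n
    obtain ⟨N, hN⟩ := cyl_sub_psupp flip he n
    obtain ⟨y, hy, hzy⟩ := h N
    exact ⟨y, hN hy, hzy⟩

lemma preimage_Jset {e : ℕ → DD flip} {x : Om} (he : Shrinks e (ev flip x)) :
    (ev flip) ⁻¹' (Jset flip e) = JJ x := by
  ext z
  have hkey : ∀ n, ev flip z ∈ ⋂₀ {E | IsIncreasing flip (TT flip) E ∧ supp (e n) ⊆ E} ↔
      ∃ y ∈ psupp flip (e n), PP y z := by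
    intro n
    constructor
    · intro h
      have h1 := Set.mem_sInter.mp h {w | ∃ y ∈ psupp flip (e n), Le flip (TT flip) (ev flip y) w} ?_
      · obtain ⟨y, hy, hzy⟩ := h1
        exact ⟨y, hy, (Le_iff flip y z).mp hzy⟩
      · constructor
        · intro a b ha hab
          obtain ⟨a', rfl⟩ := ev_surjective flip a
          obtain ⟨b', rfl⟩ := ev_surjective flip b
          obtain ⟨y, hy, hya⟩ := ha
          exact ⟨y, hy, (Le_iff flip _ _).mpr (PP_trans ((Le_iff flip _ _).mp hya)
            ((Le_iff flip _ _).mp hab))⟩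
        · intro a ha
          obtain ⟨a', rfl⟩ := ev_surjective flip a
          exact ⟨a', ha, (Le_iff flip _ _).mpr (PP_refl a')⟩
    · rintro ⟨y, hy, hzy⟩
      refine Set.mem_sInter.mpr fun E hE => ?_
      exact hE.1 (ev flip y) (ev flip z) (hE.2 hy) ((Le_iff flip y z).mpr hzy)
  show ev flip z ∈ ⋂ n, ⋂₀ {E | IsIncreasing flip (TT flip) E ∧ supp (e n) ⊆ E} ↔ _
  rw [Set.mem_iInter, JJ, Set.mem_iInter]
  simp_rw [hkey]
  constructor
  · intro h N
    obtain ⟨n, hn⟩ := psupp_sub_cyl flip he N
    obtain ⟨y, hy, hzy⟩ := h n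
    exact ⟨y, hn hy, hzy⟩
  · intro h n
    obtain ⟨N, hN⟩ := cyl_sub_psupp flip he n
    obtain ⟨y, hy, hzy⟩ := h N
    exact ⟨y, hN hy, hzy⟩

/-- cylinder projections shrink to a point -/
lemma exists_shrinks (w : Spec (DD flip)) : ∃ e : ℕ → DD flip, Shrinks e w := by
  classical
  obtain ⟨x, rfl⟩ := ev_surjective flip w
  refine ⟨fun n => prD flip n (res n x), fun n => ⟨prD_mul_self flip n _, prD_selfAdj flip n _⟩,
    fun n => prD_mul flip (Nat.le_succ n) (res (n + 1) x), ?_⟩
  ext u
  obtain ⟨z, rfl⟩ := ev_surjective flip u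
  rw [Set.mem_iInter, Set.mem_singleton_iff]
  constructor
  · intro h
    congr 1
    funext k
    have h1 : ev flip z (prD flip (k + 1) (res (k + 1) x)) = 1 := h (k + 1)
    rw [ev_prD] at h1
    by_cases h2 : res (k + 1) z = res (k + 1) x
    · exact res_eq_iff.mp h2 k (Nat.lt_succ_self k)
    · simp [h2] at h1
  · intro h n
    show ev flip z (prD flip n (res n x)) = 1
    rw [h, ev_prD, if_pos rfl]

/-- the representing measure -/
def muX : Measure (Spec (DD flip)) := mu0.map (evH flip).toMeasurableEquiv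

lemma muX_apply (S : Set (Spec (DD flip))) : muX flip S = mu0 ((ev flip) ⁻¹' S) := by
  rw [muX, MeasurableEquiv.map_apply]
  rfl

lemma integrable_ent (a : AA) : Integrable (fun x => ent (a : B) x x) mu0 := by
  refine Integrable.of_bound (continuous_ent a).aestronglyMeasurable ‖(a : B)‖ ?_
  exact Filter.Eventually.of_forall fun x => norm_ent_le _ x x

/-- the trace -/
def tr : AA →L[ℂ] ℂ :=
  LinearMap.mkContinuous
    { toFun := fun a => ∫ x, ent (a : B) x x ∂mu0
      map_add' := fun a b => integral_add (integrable_ent a) (integrable_ent b)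
      map_smul' := fun c a => by
        show ∫ x, c * ent (a : B) x x ∂mu0 = c * _
        rw [integral_const_mul] } 1 (fun a => by
    rw [one_mul]
    refine (norm_integral_le_of_norm_le_const (Filter.Eventually.of_forall fun x =>
      norm_ent_le (a : B) x x)).trans ?_
    simp [AddSubgroupClass.coe_norm])

lemma tr_apply (a : AA) : tr a = ∫ x, ent (a : B) x x ∂mu0 := rfl

lemma tr_piA (n : ℕ) (γ : Matrix (X n) (X n) ℂ) : tr (piA n γ) = (kap n).toReal * γ.trace := by
  classical
  rw [tr_apply]
  have h1 : (fun x : Om => ent ((piA n γ : AA) : B) x x)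
      = fun x => ∑ i, (cyl n (ins n i 0)).indicator (fun _ => γ i i) x := by
    funext x
    rw [coe_piA, ent_pif, if_pos (Teq.refl n x), Finset.sum_eq_single (res n x)]
    · rw [Set.indicator_of_mem]
      intro k hk
      exact (res_eq_iff.mp (res_ins n (res n x) 0) k hk).symm
    · intro i _ hi
      rw [Set.indicator_of_notMem]
      intro hx
      apply hi
      rw [← res_ins n i 0]
      exact (res_eq_iff.mpr hx).symm
    · intro h
      exact absurd (Finset.mem_univ _) h
  rw [h1, integral_finsetSum _ fun i _ => ?_]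
  · rw [Matrix.trace, Finset.mul_sum]
    refine Finset.sum_congr rfl fun i _ => ?_
    rw [integral_indicator_const _ (isClopen_cyl n _).isOpen.measurableSet, Measure.real, mu0_cyl]
    rfl
  · exact (integrable_const _).indicator (isClopen_cyl n _).isOpen.measurableSet

lemma tr_mul_comm (a b : AA) : tr (a * b) = tr (b * a) := by
  have hd : Dense (⋃ n, (FF n : Set AA)) := by
    rw [dense_iff_closure_eq]
    exact FF_dense
  have hd2 : Dense ((⋃ n, (FF n : Set AA)) ×ˢ (⋃ n, (FF n : Set AA))) := hd.prod hd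
  have hc1 : Continuous fun p : AA × AA => tr (p.1 * p.2) :=
    tr.continuous.comp (continuous_fst.mul continuous_snd)
  have hc2 : Continuous fun p : AA × AA => tr (p.2 * p.1) :=
    tr.continuous.comp (continuous_snd.mul continuous_fst)
  have h := Continuous.ext_on hd2 hc1 hc2 ?_
  · exact congrFun h (a, b)
  · rintro ⟨c, d⟩ ⟨hc, hd⟩
    obtain ⟨n, hn⟩ := Set.mem_iUnion.mp hc
    obtain ⟨m, hm⟩ := Set.mem_iUnion.mp hd
    have hn' := FF_mono (le_max_left n m) hn
    have hm' := FF_mono (le_max_right n m) hm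
    obtain ⟨α, rfl⟩ := hn'
    obtain ⟨β, rfl⟩ := hm'
    show tr (piA (max n m) α * piA (max n m) β) = tr (piA (max n m) β * piA (max n m) α)
    rw [← map_mul, ← map_mul, tr_piA, tr_piA, Matrix.trace_mul_comm]

lemma isTrace : IsTrace tr where
  one := by
    classical
    rw [tr_apply]
    have h : (fun x : Om => ent ((1 : AA) : B) x x) = fun _ => (1 : ℂ) := by
      funext x
      show ent (1 : B) x x = 1
      rw [ent_one, if_pos rfl]
    rw [h]
    simp
  pos := fun a => by
    rw [tr_apply]
    have h : (fun x : Om => ent ((star a * a : AA) : B) x x)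
        = fun x => (((‖(a : B) (del x)‖ ^ 2 : ℝ)) : ℂ) := by
      funext x
      show ent (star (a : B) * (a : B)) x x = _
      rw [ent_star_mul, inner_self_eq_norm_sq_to_K]
      push_cast
      rfl
    have h2 : ∫ x : Om, (((‖(a : B) (del x)‖ ^ 2 : ℝ)) : ℂ) ∂mu0
        = ((∫ x : Om, ‖(a : B) (del x)‖ ^ 2 ∂mu0 : ℝ) : ℂ) := integral_ofReal
    rw [h, h2]
    refine ⟨?_, ?_⟩
    · rw [Complex.ofReal_re]
      exact integral_nonneg fun x => by positivity
    · exact Complex.ofReal_im _
  comm := tr_mul_comm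

lemma isTraceMeasure : IsTraceMeasure (muX flip) where
  prob := by
    refine ⟨?_⟩
    rw [muX_apply]
    simp
  eq := by
    refine ⟨tr, isTrace, fun d => ?_⟩
    rw [muX, (evH flip).toMeasurableEquiv.measurableEmbedding.integral_map, tr_apply]
    rfl

/-- uniqueness of the trace -/
lemma trace_unique {τ : AA →L[ℂ] ℂ} (h : IsTrace τ) : τ = tr := by
  classical
  have hstep : ∀ (n : ℕ) (σ : AA →L[ℂ] ℂ), IsTrace σ → ∀ γ : Matrix (X n) (X n) ℂ,
      σ (piA n γ) = ((Fintype.card (X n) : ℂ))⁻¹ * γ.trace := by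
    intro n σ hσ γ
    set f : Matrix (X n) (X n) ℂ → ℂ := fun γ => σ (piA n γ) with hf
    have hcomm : ∀ α β, f (α * β) = f (β * α) := by
      intro α β
      simp only [hf, map_mul]
      exact hσ.comm _ _
    have hoff : ∀ i j : X n, i ≠ j → f (Matrix.single i j 1) = 0 := by
      intro i j hij
      have h1 : (Matrix.single i j 1 : Matrix (X n) (X n) ℂ)
          = Matrix.single i i 1 * Matrix.single i j 1 := by
        rw [Matrix.single_mul_single_same, one_mul]
      rw [h1, hcomm, Matrix.single_mul_single_of_ne _ _ _ _ (Ne.symm hij)]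
      simp [hf]
    have hon : ∀ i j : X n, f (Matrix.single i i 1) = f (Matrix.single j j 1) := by
      intro i j
      have h1 : (Matrix.single i i 1 : Matrix (X n) (X n) ℂ)
          = Matrix.single i j 1 * Matrix.single j i 1 := by
        rw [Matrix.single_mul_single_same, one_mul]
      rw [h1, hcomm, Matrix.single_mul_single_same, one_mul]
    have hlin : ∀ γ, f γ = ∑ i, ∑ j, γ i j * f (Matrix.single i j 1) := by
      intro γ
      have h1 : γ = ∑ i, ∑ j, γ i j • (Matrix.single i j 1 : Matrix (X n) (X n) ℂ) := by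
        conv_lhs => rw [Matrix.matrix_eq_sum_single γ]
        simp
      conv_lhs => rw [h1]
      simp only [hf, map_sum, map_smul, smul_eq_mul]
    obtain ⟨i0⟩ : Nonempty (X n) := inferInstance
    have hform : ∀ γ, f γ = f (Matrix.single i0 i0 1) * γ.trace := by
      intro γ
      rw [hlin, Matrix.trace, Finset.mul_sum]
      refine Finset.sum_congr rfl fun i _ => ?_
      rw [Finset.sum_eq_single i]
      · rw [hon i i0, mul_comm]
        rfl
      · intro j _ hj
        rw [hoff i j hj.symm, mul_zero]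
      · intro h'
        exact absurd (Finset.mem_univ _) h'
    have hone : f 1 = 1 := by
      simp only [hf, map_one]
      exact hσ.one
    have hc : f (Matrix.single i0 i0 1) * (Fintype.card (X n) : ℂ) = 1 := by
      have h2 := hform 1
      rw [hone, Matrix.trace_one] at h2
      exact h2.symm
    have hcard : (Fintype.card (X n) : ℂ) ≠ 0 := by
      intro h0
      rw [h0, mul_zero] at hc
      exact zero_ne_one hc
    show f γ = _
    rw [hform γ, eq_inv_of_mul_eq_one_left hc]
  have hd : Dense (⋃ n, (FF n : Set AA)) := by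
    rw [dense_iff_closure_eq]
    exact FF_dense
  have h1 := Continuous.ext_on hd τ.continuous tr.continuous ?_
  · exact ContinuousLinearMap.ext fun a => congrFun h1 a
  · intro a ha
    obtain ⟨n, hn⟩ := Set.mem_iUnion.mp ha
    obtain ⟨γ, rfl⟩ := hn
    show τ (piA n γ) = tr (piA n γ)
    rw [hstep n τ h γ, hstep n tr isTrace γ]

lemma isTopologicalBasis_cyl :
    TopologicalSpace.IsTopologicalBasis {S : Set Om | ∃ n x, S = cyl n x} := by
  refine TopologicalSpace.isTopologicalBasis_of_isOpen_of_nhds ?_ ?_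
  · rintro _ ⟨n, x, rfl⟩
    exact (isClopen_cyl n x).isOpen
  · intro x U hx hU
    by_contra hc
    have h0 : ∀ N, ¬ cyl N x ⊆ U := fun N hN => hc ⟨_, ⟨N, x, rfl⟩, mem_cyl_self N x, hN⟩
    have h1 : (⋂ N, (cyl N x ∩ Uᶜ)).Nonempty := by
      refine IsCompact.nonempty_iInter_of_sequence_nonempty_isCompact_isClosed _
        (fun N => ?_) (fun N => ?_) ?_ (fun N => ?_)
      · exact Set.inter_subset_inter_left _ (cyl_anti (Nat.le_succ N) x)
      · obtain ⟨z, hz, hz'⟩ := Set.not_subset.mp (h0 N)
        exact ⟨z, hz, hz'⟩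
      · exact ((isClopen_cyl 0 x).isClosed.inter hU.isClosed_compl).isCompact
      · exact (isClopen_cyl N x).isClosed.inter hU.isClosed_compl
    obtain ⟨z, hz⟩ := h1
    rw [Set.mem_iInter] at hz
    have hzx : z = x := funext fun k => (hz (k + 1)).1 k (Nat.lt_succ_self k)
    exact (hz 0).2 (hzx ▸ hx)

/-- uniqueness of the measure -/
lemma measure_unique {μ : Measure (Spec (DD flip))} (h : IsTraceMeasure μ) : μ = muX flip := by
  classical
  have := h.prob
  have := (isTraceMeasure flip).prob
  have hval : ∀ {ν : Measure (Spec (DD flip))}, IsTraceMeasure ν → ∀ n x,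
      (ν.map (evH flip).symm.toMeasurableEquiv) (cyl n x) = kap n := by
    intro ν hν n x
    have := hν.prob
    obtain ⟨τ, hτ, hν2⟩ := hν.eq
    have h1 := hν2 (prD flip n (res n x))
    rw [trace_unique hτ] at h1
    have h2 : tr (prD flip n (res n x) : AA) = (kap n).toReal := by
      show tr (piA n (Matrix.single (res n x) (res n x) 1)) = _
      rw [tr_piA, Matrix.trace_single_eq_same, mul_one]
    have h3 : (fun w : Spec (DD flip) => w (prD flip n (res n x)))
        = ((evH flip).symm ⁻¹' (cyl n x)).indicator fun _ => (1 : ℂ) := by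
      funext w
      obtain ⟨z, rfl⟩ := ev_surjective flip w
      rw [ev_prD]
      by_cases hz : res n z = res n x
      · rw [if_pos hz, Set.indicator_of_mem]
        rw [← evH_apply, Set.mem_preimage, Homeomorph.symm_apply_apply]
        exact res_eq_iff.mp hz
      · rw [if_neg hz, Set.indicator_of_notMem]
        rw [← evH_apply, Set.mem_preimage, Homeomorph.symm_apply_apply]
        exact fun hz' => hz (res_eq_iff.mpr hz')
    have hm : MeasurableSet ((evH flip).symm ⁻¹' (cyl n x)) :=
      ((isClopen_cyl n x).isOpen.preimage (evH flip).symm.continuous).measurableSet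
    rw [h3, h2, integral_indicator_const _ hm] at h1
    have h4 : ν.real ((evH flip).symm ⁻¹' (cyl n x)) = (kap n).toReal := by
      have h5 : ((ν.real ((evH flip).symm ⁻¹' (cyl n x)) : ℝ) : ℂ) = ((kap n).toReal : ℂ) := by
        rw [← h1]
        simp
      exact_mod_cast h5
    rw [MeasurableEquiv.map_apply]
    show ν ((evH flip).symm ⁻¹' (cyl n x)) = kap n
    rw [Measure.real] at h4
    exact (ENNReal.toReal_eq_toReal_iff' (measure_ne_top _ _) (kap_ne_top n)).mp h4
  have hpi : IsPiSystem {S : Set Om | ∃ n x, S = cyl n x} := by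
    rintro _ ⟨n, x, rfl⟩ _ ⟨m, y, rfl⟩ ⟨z, hz1, hz2⟩
    rcases le_total n m with hnm | hnm
    · refine ⟨m, y, ?_⟩
      refine Set.inter_eq_right.mpr fun w hw k hk => ?_
      rw [hw k (by omega), ← hz2 k (by omega), hz1 k hk]
    · refine ⟨n, x, ?_⟩
      refine Set.inter_eq_left.mpr fun w hw k hk => ?_
      rw [hw k (by omega), ← hz1 k (by omega), hz2 k hk]
  have hgen : (inferInstance : MeasurableSpace Om)
      = MeasurableSpace.generateFrom {S : Set Om | ∃ n x, S = cyl n x} := by
    rw [← isTopologicalBasis_cyl.borel_eq_generateFrom]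
    exact BorelSpace.measurable_eq
  have h6 : μ.map (evH flip).symm.toMeasurableEquiv
      = (muX flip).map (evH flip).symm.toMeasurableEquiv := by
    have : IsFiniteMeasure (μ.map (evH flip).symm.toMeasurableEquiv) := inferInstance
    refine ext_of_generate_finite _ hgen hpi ?_ ?_
    · rintro _ ⟨n, x, rfl⟩
      rw [hval h n x, hval (isTraceMeasure flip) n x]
    · rw [MeasurableEquiv.map_apply, MeasurableEquiv.map_apply, Set.preimage_univ, measure_univ,
        measure_univ]
  exact (MeasurableEquiv.map_measurableEquiv_injective _) h6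

lemma condII : CondII flip (TT flip) (muX flip) := by
  intro w u hwu hne
  obtain ⟨x, rfl⟩ := ev_surjective flip w
  obtain ⟨y, rfl⟩ := ev_surjective flip u
  have hxy : PP x y := (Le_iff flip x y).mp hwu
  have hne' : x ≠ y := fun h => hne (congrArg _ h)
  by_cases hx : ∃ k, x k = 0
  · right
    obtain ⟨U, hU, hinc, hy, hx⟩ := separate hxy hne' hx
    refine ⟨(evH flip).symm ⁻¹' U, hU.preimage (evH flip).symm.continuous, ?_, ?_, ?_⟩
    · intro a b ha hab
      obtain ⟨a', rfl⟩ := ev_surjective flip a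
      obtain ⟨b', rfl⟩ := ev_surjective flip b
      rw [← evH_apply, Set.mem_preimage, Homeomorph.symm_apply_apply] at ha ⊢
      exact hinc a' b' ha ((Le_iff flip a' b').mp hab)
    · rw [← evH_apply, Set.mem_preimage, Homeomorph.symm_apply_apply]
      exact hy
    · rw [← evH_apply, Set.mem_preimage, Homeomorph.symm_apply_apply]
      exact hx
  · left
    intro e f he hf
    rw [muX_apply, muX_apply, preimage_Eset flip he, preimage_Eset flip hf]
    refine EE_lt hxy hne' ?_
    push Not at hx
    exact hx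

lemma not_condI : ¬ CondI flip (TT flip) (muX flip) := by
  intro h
  obtain ⟨e, he⟩ := exists_shrinks flip (ev flip xmax)
  have h1 := h (ev flip xmax) e he
  rw [muX_apply, Set.preimage_inter, preimage_Eset flip he, preimage_Jset flip he] at h1
  exact pos_EE_JJ h1

end

end Pool.Agent.Lib.MP_6e0de5_an
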