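import Pool.Agent.Lib.MP_6e0de5_an.Comb

/-!
Operators on `ℓ²(Om)`: matrix entries and the matrix algebras acting on the first coordinates.
-/

namespace Pool.Agent.Lib.MP_6e0de5_an

open scoped ComplexConjugate InnerProductSpace

noncomputable section

/-- the Hilbert space -/
abbrev H : Type := lp (fun _ : Om => ℂ) 2

/-- bounded operators -/
abbrev B : Type := H →L[ℂ] H

lemma Teq.refl (n : ℕ) (x : Om) : Teq n x x := fun _ _ => rfl

open Classical in
/-- basis vectors -/
def del (y : Om) : H := lp.single 2 y (1 : ℂ)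

open Classical in
lemma del_apply (y x : Om) : (del y : Om → ℂ) x = if x = y then 1 else 0 := by
  rw [del, lp.single_apply]
  by_cases h : x = y
  · subst h; simp
  · rw [Pi.single_eq_of_ne h, if_neg h]

/-- matrix entries -/
def ent (a : B) (x y : Om) : ℂ := (a (del y) : Om → ℂ) x

lemma inner_del_left (x : Om) (f : H) : ⟪del x, f⟫_ℂ = (f : Om → ℂ) x := by
  classical
  rw [del, lp.inner_single_left]
  simp

lemma norm_del (x : Om) : ‖del x‖ = 1 := by
  classical
  rw [del, lp.norm_single (by norm_num)]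
  simp

lemma norm_coe_le (f : H) (x : Om) : ‖(f : Om → ℂ) x‖ ≤ ‖f‖ :=
  lp.norm_apply_le_norm (by norm_num) f x

lemma norm_ent_le (a : B) (x y : Om) : ‖ent a x y‖ ≤ ‖a‖ := by
  refine (norm_coe_le _ x).trans ((a.le_opNorm _).trans ?_)
  rw [norm_del, mul_one]

lemma ent_add (a b : B) (x y : Om) : ent (a + b) x y = ent a x y + ent b x y := rfl

lemma ent_sub (a b : B) (x y : Om) : ent (a - b) x y = ent a x y - ent b x y := rfl

lemma ent_smul (c : ℂ) (a : B) (x y : Om) : ent (c • a) x y = c * ent a x y := rfl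

lemma ent_zero (x y : Om) : ent (0 : B) x y = 0 := rfl

lemma ent_star (a : B) (x y : Om) : ent (star a) x y = conj (ent a y x) := by
  rw [ent, ent, ← inner_del_left x, ← inner_del_left y, ContinuousLinearMap.star_eq_adjoint,
    ContinuousLinearMap.adjoint_inner_right, inner_conj_symm]

/-- expansion of a vector in the basis -/
lemma hasSum_del (f : H) : HasSum (fun y => (f : Om → ℂ) y • del y) f := by
  classical
  have h := lp.hasSum_single (p := 2) (E := fun _ : Om => ℂ) (by norm_num) f
  convert h using 2 with y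
  rw [del, ← lp.single_smul]
  simp

lemma hasSum_apply (a : B) (f : H) : HasSum (fun y => (f : Om → ℂ) y • a (del y)) (a f) := by
  have := a.hasSum (hasSum_del f)
  simpa using this

/-- evaluation at a coordinate -/
def coordL (x : Om) : H →L[ℂ] ℂ := innerSL ℂ (del x)

lemma coordL_apply (x : Om) (f : H) : coordL x f = (f : Om → ℂ) x := by
  rw [coordL, innerSL_apply_apply, inner_del_left]

lemma hasSum_ent (a : B) (f : H) (x : Om) :
    HasSum (fun y => (f : Om → ℂ) y * ent a x y) ((a f : Om → ℂ) x) := by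
  have := (coordL x).hasSum (hasSum_apply a f)
  simpa [coordL_apply, ent] using this

lemma ent_ext {a b : B} (h : ∀ x y, ent a x y = ent b x y) : a = b := by
  refine ContinuousLinearMap.ext fun f => ?_
  refine Subtype.ext (funext fun x => ?_)
  have h1 := hasSum_ent a f x
  have h2 := hasSum_ent b f x
  simp_rw [h x] at h1
  exact h1.unique h2

lemma hasSum_ent_mul (a b : B) (x y : Om) :
    HasSum (fun z => ent b z y * ent a x z) (ent (a * b) x y) := hasSum_ent a (b (del y)) x

lemma ent_one (x y : Om) [Decidable (x = y)] : ent (1 : B) x y = if x = y then 1 else 0 := by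
  rw [ent, one_apply_eq_self, del_apply]
  congr

/-- diagonal operators -/
def IsDiag (a : B) : Prop := ∀ x y, x ≠ y → ent a x y = 0

lemma IsDiag.apply {a : B} (h : IsDiag a) (f : H) (x : Om) :
    (a f : Om → ℂ) x = ent a x x * (f : Om → ℂ) x := by
  classical
  have h1 := hasSum_ent a f x
  have h2 : HasSum (fun y => (f : Om → ℂ) y * ent a x y) ((f : Om → ℂ) x * ent a x x) := by
    refine hasSum_single x fun y hy => ?_
    rw [h x y hy.symm, mul_zero]
  rw [h1.unique h2, mul_comm]

lemma IsDiag.ent_mul {a b : B} (ha : IsDiag a) (x y : Om) :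
    ent (a * b) x y = ent a x x * ent b x y := ha.apply (b (del y)) x

lemma IsDiag.ent_mul' {a b : B} (hb : IsDiag b) (x y : Om) :
    ent (a * b) x y = ent a x y * ent b y y := by
  have h1 := hasSum_ent_mul a b x y
  have h2 : HasSum (fun z => ent b z y * ent a x z) (ent b y y * ent a x y) := by
    refine hasSum_single y fun z hz => ?_
    rw [hb z y hz, zero_mul]
  rw [h1.unique h2, mul_comm]

lemma sq_norm_eq (f : H) : ‖f‖ ^ 2 = ∑' x, ‖(f : Om → ℂ) x‖ ^ 2 := by
  have h := lp.norm_rpow_eq_tsum (p := 2) (E := fun _ : Om => ℂ) (by norm_num) f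
  simpa using h

lemma summable_sq (f : H) : Summable fun x => ‖(f : Om → ℂ) x‖ ^ 2 := by
  have h := (memℓp_gen_iff (p := 2) (E := fun _ : Om => ℂ) (by norm_num)).mp f.2
  simpa using h

lemma IsDiag.norm_le {a : B} (h : IsDiag a) {c : ℝ} (hc : 0 ≤ c) (hb : ∀ x, ‖ent a x x‖ ≤ c) :
    ‖a‖ ≤ c := by
  refine ContinuousLinearMap.opNorm_le_bound _ hc fun f => ?_
  refine abs_le_of_sq_le_sq' ?_ (by positivity) |>.2
  rw [mul_pow, sq_norm_eq, sq_norm_eq, ← tsum_mul_left]
  refine (summable_sq _).tsum_le_tsum (fun x => ?_) ((summable_sq _).mul_left _)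
  rw [h.apply, norm_mul, mul_pow]
  gcongr
  exact hb x

/-- the operator `f ↦ (x ↦ if x ∈ S then f (φ x) else 0)` for `φ` injective on `S` -/
def wfun (S : Set Om) (φ : Om → Om) (f : Om → ℂ) : Om → ℂ := S.indicator fun x => f (φ x)

lemma wfun_summable {S : Set Om} {φ : Om → Om} (hφ : Set.InjOn φ S) (f : H) :
    Summable (fun x => ‖wfun S φ f x‖ ^ 2) ∧
      ∑' x, ‖wfun S φ f x‖ ^ 2 ≤ ‖f‖ ^ 2 := by
  have h1 : (fun x => ‖wfun S φ f x‖ ^ 2) =
      S.indicator (fun x => ‖(f : Om → ℂ) (φ x)‖ ^ 2) := by
    funext x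
    by_cases hx : x ∈ S
    · simp [wfun, hx]
    · simp [wfun, hx]
  have hinj : Function.Injective (fun s : S => φ s) := fun s t h => Subtype.ext (hφ s.2 t.2 h)
  have h2 : Summable (fun s : S => ‖(f : Om → ℂ) (φ s)‖ ^ 2) :=
    (summable_sq f).comp_injective hinj
  constructor
  · rw [h1]
    exact summable_subtype_iff_indicator.mp h2
  · rw [h1, ← tsum_subtype, sq_norm_eq]
    exact tsum_comp_le_tsum_of_inj (summable_sq f) (fun _ => by positivity) hinj

lemma wfun_mem {S : Set Om} {φ : Om → Om} (hφ : Set.InjOn φ S) (f : H) :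
    Memℓp (wfun S φ f) 2 := by
  rw [memℓp_gen_iff (by norm_num)]
  simpa using (wfun_summable hφ f).1

/-- the partial isometry attached to `φ` on `S` -/
def wop (S : Set Om) (φ : Om → Om) (hφ : Set.InjOn φ S) : B :=
  LinearMap.mkContinuous
    { toFun := fun f => ⟨wfun S φ f, wfun_mem hφ f⟩
      map_add' := fun f g => by
        refine Subtype.ext (funext fun x => ?_)
        show wfun S φ (f + g : H) x = wfun S φ f x + wfun S φ g x
        by_cases hx : x ∈ S
        · simp [wfun, hx]
        · simp [wfun, hx]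
      map_smul' := fun c f => by
        refine Subtype.ext (funext fun x => ?_)
        show wfun S φ (c • f : H) x = c * wfun S φ f x
        by_cases hx : x ∈ S
        · simp [wfun, hx]
        · simp [wfun, hx] } 1 (fun f => by
    refine abs_le_of_sq_le_sq' ?_ (by positivity) |>.2
    rw [one_mul, sq_norm_eq]
    exact (wfun_summable hφ f).2)

lemma wop_apply (S : Set Om) (φ : Om → Om) (hφ : Set.InjOn φ S) (f : H) (x : Om)
    [Decidable (x ∈ S)] :
    (wop S φ hφ f : Om → ℂ) x = if x ∈ S then (f : Om → ℂ) (φ x) else 0 := by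
  show wfun S φ f x = _
  by_cases hx : x ∈ S
  · simp [wfun, hx]
  · simp [wfun, hx]

/-- words of length `n` -/
abbrev X (n : ℕ) : Type := ∀ k : Fin n, C k

/-- the first `n` coordinates -/
def res (n : ℕ) (x : Om) : X n := fun k => x k

/-- replace the first `n` coordinates -/
def ins (n : ℕ) (p : X n) (x : Om) : Om := fun k => if h : k < n then p ⟨k, h⟩ else x k

lemma res_ins (n : ℕ) (p : X n) (x : Om) : res n (ins n p x) = p := by
  funext k
  simp [res, ins, k.2]

lemma ins_ins (n : ℕ) (p q : X n) (x : Om) : ins n p (ins n q x) = ins n p x := by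
  funext k
  by_cases h : k < n
  · simp [ins, h]
  · simp [ins, h]

lemma ins_res (n : ℕ) (x : Om) : ins n (res n x) x = x := by
  funext k
  by_cases h : k < n
  · simp [ins, res, h]
  · simp [ins, h]

lemma ins_Teq (n : ℕ) (p : X n) (x : Om) : Teq n (ins n p x) x := by
  intro k hk
  simp [ins, not_lt.mpr hk]

lemma ins_eq_of_Teq {n : ℕ} {x y : Om} (h : Teq n x y) : ins n (res n x) y = x := by
  funext k
  by_cases hk : k < n
  · simp [ins, res, hk]
  · simp [ins, hk, h k (not_lt.mp hk)]

lemma res_eq_iff {n : ℕ} {x y : Om} : res n x = res n y ↔ ∀ k < n, x k = y k := by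
  constructor
  · intro h k hk
    exact congrFun h ⟨k, hk⟩
  · intro h
    funext k
    exact h k k.2

lemma ins_eq_iff {n : ℕ} {p : X n} {x y : Om} : ins n p x = y ↔ p = res n y ∧ Teq n x y := by
  constructor
  · rintro rfl
    exact ⟨(res_ins n p x).symm, (ins_Teq n p x).symm⟩
  · rintro ⟨rfl, h⟩
    exact ins_eq_of_Teq h.symm

lemma eq_of_res_of_Teq {n : ℕ} {x y : Om} (h1 : res n x = res n y) (h2 : Teq n x y) : x = y := by
  rw [← ins_eq_of_Teq h2, h1, ins_res]

/-- matrix units -/
def E (n : ℕ) (i j : X n) : B := wop {x | res n x = i} (ins n j) (by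
  intro x hx y hy hxy
  refine eq_of_res_of_Teq (n := n) (hx.trans (Eq.symm hy)) ?_
  intro k hk
  rw [← ins_Teq n j x k hk, ← ins_Teq n j y k hk]
  exact congrFun hxy k)

open Classical in
lemma E_apply (n : ℕ) (i j : X n) (f : H) (x : Om) :
    (E n i j f : Om → ℂ) x = if res n x = i then (f : Om → ℂ) (ins n j x) else 0 :=
  wop_apply _ _ _ f x

/-- the operator of a matrix -/
def pif (n : ℕ) (α : Matrix (X n) (X n) ℂ) : B := ∑ i, ∑ j, α i j • E n i j

lemma pif_apply (n : ℕ) (α : Matrix (X n) (X n) ℂ) (f : H) (x : Om) :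
    (pif n α f : Om → ℂ) x = ∑ j, α (res n x) j * (f : Om → ℂ) (ins n j x) := by
  classical
  have h1 : (pif n α f : Om → ℂ) x
      = ∑ i, ∑ j, α i j * (E n i j f : Om → ℂ) x := by
    rw [pif]
    simp only [sum_apply, smul_apply, lp.coeFn_sum,
      Finset.sum_apply, lp.coeFn_smul, Pi.smul_apply, smul_eq_mul]
  rw [h1, Finset.sum_eq_single (res n x)]
  · refine Finset.sum_congr rfl fun j _ => ?_
    rw [E_apply, if_pos rfl]
  · intro i _ hi
    refine Finset.sum_eq_zero fun j _ => ?_
    rw [E_apply, if_neg hi.symm, mul_zero]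
  · intro h
    exact absurd (Finset.mem_univ _) h

open Classical in
lemma ent_pif (n : ℕ) (α : Matrix (X n) (X n) ℂ) (x y : Om) :
    ent (pif n α) x y = if Teq n x y then α (res n x) (res n y) else 0 := by
  rw [ent, pif_apply]
  by_cases h : Teq n x y
  · rw [if_pos h, Finset.sum_eq_single (res n y)]
    · rw [del_apply, if_pos (ins_eq_of_Teq h.symm), mul_one]
    · intro j _ hj
      rw [del_apply, if_neg, mul_zero]
      rw [ins_eq_iff]
      exact fun hc => hj hc.1
    · intro h'
      exact absurd (Finset.mem_univ _) h'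
  · rw [if_neg h]
    refine Finset.sum_eq_zero fun j _ => ?_
    rw [del_apply, if_neg, mul_zero]
    rw [ins_eq_iff]
    exact fun hc => h hc.2

/-- the representation of the matrix algebra -/
def piHom (n : ℕ) : Matrix (X n) (X n) ℂ →⋆ₐ[ℂ] B where
  toFun := pif n
  map_one' := by
    classical
    refine ent_ext fun x y => ?_
    rw [ent_pif, ent_one]
    by_cases h : x = y
    · subst h
      rw [if_pos (Teq.refl n x), if_pos rfl, Matrix.one_apply_eq]
    · rw [if_neg h]
      by_cases h2 : Teq n x y
      · rw [if_pos h2, Matrix.one_apply_ne fun h3 => h (eq_of_res_of_Teq h3 h2)]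
      · rw [if_neg h2]
  map_mul' := fun α β => by
    refine ContinuousLinearMap.ext fun f => Subtype.ext (funext fun x => ?_)
    show (pif n (α * β) f : Om → ℂ) x = (pif n α (pif n β f) : Om → ℂ) x
    rw [pif_apply, pif_apply]
    simp_rw [pif_apply, res_ins, ins_ins, Matrix.mul_apply, Finset.sum_mul, Finset.mul_sum]
    rw [Finset.sum_comm]
    simp_rw [mul_assoc]
  map_zero' := by
    refine ent_ext fun x y => ?_
    classical
    rw [ent_pif, ent_zero]
    simp
  map_add' := fun α β => by
    refine ent_ext fun x y => ?_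
    classical
    rw [ent_add, ent_pif, ent_pif, ent_pif]
    by_cases h : Teq n x y
    · simp [h]
    · simp [h]
  commutes' := fun r => by
    refine ent_ext fun x y => ?_
    classical
    have h1 : (algebraMap ℂ B r) = r • (1 : B) := Algebra.algebraMap_eq_smul_one r
    rw [h1, ent_smul, ent_one, ent_pif]
    by_cases h : x = y
    · subst h
      rw [if_pos (Teq.refl n x), if_pos rfl, Matrix.algebraMap_matrix_apply, if_pos rfl]
      simp
    · rw [if_neg h, mul_zero]
      by_cases h2 : Teq n x y
      · rw [if_pos h2, Matrix.algebraMap_matrix_apply,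
          if_neg fun h3 => h (eq_of_res_of_Teq h3 h2)]
      · rw [if_neg h2]
  map_star' := fun α => by
    refine ent_ext fun x y => ?_
    classical
    rw [ent_star, ent_pif, ent_pif]
    by_cases h : Teq n x y
    · rw [if_pos h, if_pos h.symm]
      rfl
    · rw [if_neg h, if_neg fun h' => h h'.symm, map_zero]

lemma piHom_apply (n : ℕ) (α : Matrix (X n) (X n) ℂ) : piHom n α = pif n α := rfl

lemma piHom_injective (n : ℕ) : Function.Injective (piHom n) := by
  classical
  intro α β h
  ext i j
  have h1 := congrArg (fun a => ent a (ins n i 0) (ins n j 0)) h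
  simp only [piHom_apply, ent_pif, res_ins] at h1
  have h2 : Teq n (ins n i 0) (ins n j 0) := (ins_Teq n i 0).trans (ins_Teq n j 0).symm
  simpa [h2] using h1

end

end Pool.Agent.Lib.MP_6e0de5_an
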