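import Pool.Agent.Lib.MP_6e0de5_an.Sp

/-!
The order on the spectrum of the diagonal is the order `PP` on the path space.
-/

namespace Pool.Agent.Lib.MP_6e0de5_an

open scoped ComplexConjugate InnerProductSpace

noncomputable section

lemma ent_star_mul (a b : B) (x y : Om) : ent (star a * b) x y = ⟪a (del x), b (del y)⟫_ℂ := by
  rw [ent, ← inner_del_left, ContinuousLinearMap.star_eq_adjoint]
  show ⟪del x, ContinuousLinearMap.adjoint a (b (del y))⟫_ℂ = _
  rw [ContinuousLinearMap.adjoint_inner_right]

/-- the matrix units in the algebra -/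
def V (n : ℕ) (i j : X n) : AA := piA n (Matrix.single i j 1)

lemma star_V (n : ℕ) (i j : X n) : star (V n i j) = V n j i := by
  rw [V, V, ← map_star, Matrix.star_eq_conjTranspose, Matrix.conjTranspose_single, star_one]

lemma V_mul (n : ℕ) (i j k : X n) : V n i j * V n j k = V n i k := by
  rw [V, V, V, ← map_mul, Matrix.single_mul_single_same, one_mul]

open Classical in
lemma V_apply (n : ℕ) (i j : X n) (f : H) (x : Om) :
    ((V n i j : B) f : Om → ℂ) x = if res n x = i then (f : Om → ℂ) (ins n j x) else 0 := by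
  rw [V, coe_piA, pif_apply]
  by_cases h : res n x = i
  · rw [if_pos h, Finset.sum_eq_single j]
    · rw [h, Matrix.single_apply_same, one_mul]
    · intro k _ hk
      rw [Matrix.single_apply_of_ne, zero_mul]
      exact fun h' => hk h'.2.symm
    · intro h'
      exact absurd (Finset.mem_univ _) h'
  · rw [if_neg h]
    refine Finset.sum_eq_zero fun k _ => ?_
    rw [Matrix.single_apply_of_ne, zero_mul]
    exact fun h' => h h'.1.symm

open Classical in
lemma ent_VdV (n : ℕ) (i j : X n) (d : AA) (hd : IsDiag (d : B)) (x y : Om) :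
    ent ((V n i j * d * V n j i : AA) : B) x y =
      if x = y ∧ res n x = i then ent (d : B) (ins n j x) (ins n j x) else 0 := by
  show ((V n i j : B) ((d : B) ((V n j i : B) (del y))) : Om → ℂ) x = _
  rw [V_apply]
  by_cases h : res n x = i
  · rw [if_pos h, hd.apply, V_apply, if_pos (res_ins n j x), ins_ins, del_apply, ← h, ins_res]
    by_cases hxy : x = y
    · rw [if_pos hxy, if_pos ⟨hxy, rfl⟩, mul_one]
    · rw [if_neg hxy, if_neg fun h' => hxy h'.1, mul_zero]
  · rw [if_neg h, if_neg fun h' => h h'.2]

lemma VdV_mem (flip : Bool) (n : ℕ) (i j : X n) (d : AA) (hd : d ∈ DD flip) :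
    V n i j * d * V n j i ∈ DD flip := by
  classical
  rw [mem_DD] at hd ⊢
  intro x y hxy
  rw [ent_VdV n i j d hd, if_neg fun h => hxy h.1]

lemma V_normalizes (flip : Bool) (n : ℕ) (i j : X n) : Normalizes (DD flip) (V n i j) where
  partialIsometry := by rw [star_V, V_mul, V_mul]
  left := fun d hd => by
    rw [star_V]
    exact VdV_mem flip n i j d hd
  right := fun d hd => by
    rw [star_V]
    exact VdV_mem flip n j i d hd

lemma V_graph (flip : Bool) (n : ℕ) (x y : Om) (h : Teq n x y) :
    Graph (DD flip) (V n (res n x) (res n y)) (ev flip x) (ev flip y) := by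
  classical
  refine ⟨fun d => (V_normalizes flip n _ _).right d d.2, ?_, fun d => ?_⟩
  · rw [ev_apply]
    show ent ((star (V n (res n x) (res n y)) * (1 : AA) * V n (res n x) (res n y) : AA) : B) y y
      = 1
    rw [star_V, ent_VdV n _ _ (1 : AA) (mem_DD.mp (one_mem (DD flip))), if_pos ⟨rfl, rfl⟩]
    show ent (1 : B) _ _ = 1
    rw [ent_one, if_pos rfl]
  · rw [ev_apply, ev_apply]
    show _ = ent ((star (V n (res n x) (res n y)) * (d : AA) * V n (res n x) (res n y) : AA) : B)
      y y
    rw [star_V, ent_VdV n _ _ (d : AA) (mem_DD.mp d.2), if_pos ⟨rfl, rfl⟩, ins_eq_of_Teq h]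

lemma V_mem_TT (flip : Bool) (n : ℕ) (x y : Om) (h : Teq n x y) (ho : rel flip x y) :
    V n (res n x) (res n y) ∈ TT flip := by
  classical
  intro x' y' hxy'
  rw [V, coe_piA, ent_pif]
  by_cases h' : Teq n x' y'
  · rw [if_pos h', Matrix.single_apply_of_ne]
    rintro ⟨h1, h2⟩
    exact hxy' (rel_congr h h' h1 h2 ho)
  · rw [if_neg h']

lemma graph_ent (flip : Bool) (v : AA) (x y : Om)
    (h : Graph (DD flip) v (ev flip x) (ev flip y)) : ent (v : B) x y ≠ 0 := by
  classical
  obtain ⟨hmem, h1, h2⟩ := h
  have hz : ∀ z, z ≠ x → ent (v : B) z y = 0 := by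
    intro z hzx
    obtain ⟨k, hk⟩ : ∃ k, z k ≠ x k := by
      by_contra hc
      push Not at hc
      exact hzx (funext hc)
    set n := k + 1 with hn
    have hres : res n x ≠ res n z := by
      intro h'
      exact hk ((res_eq_iff.mp h' k (Nat.lt_succ_self k)).symm)
    have h3 := h2 (prD flip n (res n z))
    rw [ev_prD, if_neg hres, ev_apply] at h3
    have h4 : ent ((star v * (prD flip n (res n z) : AA) * v : AA) : B) y y
        = ⟪((prj n (res n z) : B) * (v : B)) (del y),
            ((prj n (res n z) : B) * (v : B)) (del y)⟫_ℂ := by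
      rw [← ent_star_mul]
      have h5 : (star v * (prD flip n (res n z) : AA) * v : AA)
          = star ((prj n (res n z)) * v) * (prj n (res n z) * v) := by
        rw [star_mul]
        have h6 : star (prj n (res n z)) = prj n (res n z) :=
          congrArg (fun d : DD flip => (d : AA)) (prD_selfAdj flip n (res n z))
        have h7 : prj n (res n z) * prj n (res n z) = prj n (res n z) :=
          congrArg (fun d : DD flip => (d : AA)) (prD_mul_self flip n (res n z))
        have h8 : ((prD flip n (res n z) : DD flip) : AA) = prj n (res n z) := rfl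
        rw [h8, h6, mul_assoc (star v) (prj n (res n z)) (prj n (res n z) * v),
          ← mul_assoc (prj n (res n z)) (prj n (res n z)) v, h7, ← mul_assoc]
      rw [h5]
      rfl
    have h8 : ⟪((prj n (res n z) : B) * (v : B)) (del y),
            ((prj n (res n z) : B) * (v : B)) (del y)⟫_ℂ = 0 := by
      rw [← h4]
      exact h3.symm
    rw [inner_self_eq_zero] at h8
    have h9 : ent ((prj n (res n z) : B) * (v : B)) z y = 0 := by
      rw [ent, h8]
      rfl
    rw [(isDiag_prj n (res n z)).ent_mul, ent_prj, if_pos ⟨rfl, rfl⟩, one_mul] at h9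
    exact h9
  intro hx
  have hv : (v : B) (del y) = 0 := by
    refine Subtype.ext (funext fun z => ?_)
    show ent (v : B) z y = 0
    by_cases hzx : z = x
    · rw [hzx, hx]
    · exact hz z hzx
  rw [ev_apply] at h1
  have h10 : ent ((star v * ((1 : DD flip) : AA) * v : AA) : B) y y = 0 := by
    show ent (star (v : B) * (1 : B) * (v : B)) y y = 0
    rw [mul_one, ent_star_mul, hv, inner_zero_left]
  have h11 : (1 : ℂ) = 0 := h1.symm.trans h10
  exact one_ne_zero h11

lemma Le_iff (flip : Bool) (x y : Om) : Le flip (TT flip) (ev flip x) (ev flip y) ↔ PP x y := by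
  constructor
  · rintro ⟨v, hv, -, hg⟩
    cases flip
    · have h1 : ent (v : B) x y ≠ 0 := graph_ent false v x y hg
      refine ⟨tail_of_ent v x y h1, ?_⟩
      by_contra hc
      exact h1 (hv x y hc)
    · have h1 : ent (v : B) y x ≠ 0 := graph_ent true v y x hg
      obtain ⟨n, hn⟩ := tail_of_ent v y x h1
      refine ⟨⟨n, hn.symm⟩, ?_⟩
      by_contra hc
      exact h1 (hv y x hc)
  · rintro ⟨⟨n, hn⟩, ho⟩
    cases flip
    · exact ⟨_, V_mem_TT false n x y hn ho, V_normalizes false n _ _, V_graph false n x y hn⟩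
    · exact ⟨_, V_mem_TT true n y x hn.symm ho, V_normalizes true n _ _,
        V_graph true n y x hn.symm⟩

end

end Pool.Agent.Lib.MP_6e0de5_an
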