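import Pool.Agent.Lib.MP_6e0de5_an.Alg

/-!
The spectrum of the diagonal is the path space, and the order on it.
-/

namespace Pool.Agent.Lib.MP_6e0de5_an

open scoped ComplexConjugate InnerProductSpace

noncomputable section

/-- evaluation on the diagonal at a path -/
def evL (flip : Bool) (x : Om) : DD flip →L[ℂ] ℂ :=
  LinearMap.mkContinuous
    { toFun := fun d => ent ((d : AA) : B) x x
      map_add' := fun _ _ => rfl
      map_smul' := fun _ _ => rfl } 1 (fun d => by
        rw [one_mul]
        exact norm_ent_le _ x x)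

lemma evL_apply (flip : Bool) (x : Om) (d : DD flip) : evL flip x d = ent ((d : AA) : B) x x := rfl

lemma evL_mem (flip : Bool) (x : Om) :
    (StrongDual.toWeakDual (evL flip x)) ∈ WeakDual.characterSpace ℂ (DD flip) := by
  classical
  constructor
  · intro h
    have h1 : (StrongDual.toWeakDual (evL flip x)) (1 : DD flip) = 0 := by
      rw [h]; rfl
    have h2 : (StrongDual.toWeakDual (evL flip x)) (1 : DD flip) = 1 := by
      show ent (1 : B) x x = 1
      rw [ent_one, if_pos rfl]
    rw [h2] at h1
    exact one_ne_zero h1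
  · intro a b
    show ent (((a : AA) : B) * ((b : AA) : B)) x x
      = ent ((a : AA) : B) x x * ent ((b : AA) : B) x x
    exact (mem_DD.mp a.2).ent_mul x x

/-- the point of the spectrum given by a path -/
def ev (flip : Bool) (x : Om) : Spec (DD flip) := ⟨_, evL_mem flip x⟩

lemma ev_apply (flip : Bool) (x : Om) (d : DD flip) : ev flip x d = ent ((d : AA) : B) x x := rfl

lemma continuous_ev (flip : Bool) : Continuous (ev flip) := by
  refine Continuous.subtype_mk ?_ _
  refine WeakDual.continuous_of_continuous_eval fun d => ?_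
  exact continuous_ent (d : AA)

/-- cylinder projections in the diagonal -/
def prD (flip : Bool) (n : ℕ) (i : X n) : DD flip := ⟨prj n i, prj_mem_DD flip n i⟩

open Classical in
lemma ev_prD (flip : Bool) (x : Om) (n : ℕ) (i : X n) :
    ev flip x (prD flip n i) = if res n x = i then 1 else 0 := by
  rw [ev_apply]
  show ent (prj n i : B) x x = _
  rw [ent_prj]
  simp

lemma prD_mul_self (flip : Bool) (n : ℕ) (i : X n) :
    prD flip n i * prD flip n i = prD flip n i := by
  classical
  refine Subtype.ext (Subtype.ext (ent_ext fun x y => ?_))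
  show ent ((prj n i : B) * (prj n i : B)) x y = ent (prj n i : B) x y
  rw [(isDiag_prj n i).ent_mul, ent_prj, ent_prj]
  by_cases h : x = y
  · subst h
    by_cases h2 : res n x = i
    · simp [h2]
    · simp [h2]
  · simp [h]

lemma prD_mul (flip : Bool) {n m : ℕ} (h : n ≤ m) (i : X m) :
    prD flip m i * prD flip n (fun k => i ⟨k, k.2.trans_le h⟩) = prD flip m i := by
  classical
  refine Subtype.ext (Subtype.ext (ent_ext fun x y => ?_))
  show ent ((prj m i : B) * (prj n _ : B)) x y = ent (prj m i : B) x y
  rw [(isDiag_prj m i).ent_mul, ent_prj, ent_prj, ent_prj]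
  by_cases hxy : x = y
  · subst hxy
    by_cases h2 : res m x = i
    · have h3 : res n x = fun k : Fin n => i ⟨k, k.2.trans_le h⟩ := by
        rw [← h2]
        rfl
      simp [h2, h3]
    · simp [h2]
  · simp [hxy]

lemma prD_mul_ne (flip : Bool) (n : ℕ) {i j : X n} (h : i ≠ j) :
    prD flip n i * prD flip n j = 0 := by
  classical
  refine Subtype.ext (Subtype.ext (ent_ext fun x y => ?_))
  show ent ((prj n i : B) * (prj n j : B)) x y = 0
  rw [(isDiag_prj n i).ent_mul, ent_prj, ent_prj]
  by_cases h1 : res n x = i
  · by_cases h2 : res n x = j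
    · exact absurd (h1.symm.trans h2) h
    · simp [h2]
  · simp [h1]

lemma prD_selfAdj (flip : Bool) (n : ℕ) (i : X n) : star (prD flip n i) = prD flip n i := by
  classical
  refine Subtype.ext (Subtype.ext (ent_ext fun x y => ?_))
  show ent (star (prj n i : B)) x y = ent (prj n i : B) x y
  rw [ent_star, ent_prj, ent_prj]
  by_cases h : x = y
  · subst h
    by_cases h2 : res n x = i
    · simp [h2]
    · simp [h2]
  · rw [if_neg fun h' => h h'.1.symm, if_neg fun h' => h h'.1, map_zero]

/-- the diagonal part of a matrix -/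
def dpart (flip : Bool) (n : ℕ) (α : Matrix (X n) (X n) ℂ) : DD flip :=
  ∑ i, α i i • prD flip n i

lemma ent_sum {ι : Type*} (s : Finset ι) (f : ι → B) (x y : Om) :
    ent (∑ i ∈ s, f i) x y = ∑ i ∈ s, ent (f i) x y := by
  classical
  induction s using Finset.induction_on with
  | empty => simp [ent_zero]
  | insert a s ha ih => rw [Finset.sum_insert ha, Finset.sum_insert ha, ent_add, ih]

open Classical in
lemma ent_dpart (flip : Bool) (n : ℕ) (α : Matrix (X n) (X n) ℂ) (x y : Om) :
    ent ((dpart flip n α : AA) : B) x y = if x = y then α (res n x) (res n x) else 0 := by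
  have h1 : ((dpart flip n α : AA) : B) = ∑ i, α i i • (prj n i : B) := by
    rw [dpart]
    push_cast
    rfl
  rw [h1, ent_sum]
  simp_rw [ent_smul, ent_prj]
  by_cases h : x = y
  · subst h
    simp
  · simp [h]

lemma dpart_dense (flip : Bool) (d : DD flip) {ε : ℝ} (hε : 0 < ε) :
    ∃ n α, ‖d - dpart flip n α‖ < ε := by
  classical
  obtain ⟨n, α, h⟩ := approx (d : AA) hε
  refine ⟨n, α, lt_of_le_of_lt ?_ h⟩
  have h1 : IsDiag ((((d - dpart flip n α : DD flip) : AA)) : B) := mem_DD.mp (d - dpart flip n α).2
  refine h1.norm_le (norm_nonneg _) fun x => ?_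
  have h2 : ent ((((d - dpart flip n α : DD flip) : AA)) : B) x x
      = ent (((d : AA) : B) - pif n α) x x := by
    show ent (((d : AA) : B) - ((dpart flip n α : AA) : B)) x x = _
    rw [ent_sub, ent_sub, ent_dpart, ent_pif, if_pos rfl, if_pos (Teq.refl n x)]
  rw [h2]
  exact norm_ent_le _ x x

lemma ev_injective (flip : Bool) : Function.Injective (ev flip) := by
  classical
  intro x y h
  funext k
  have h1 := congrArg (fun w : Spec (DD flip) => w (prD flip (k + 1) (res (k + 1) x))) h
  simp only [ev_prD] at h1
  by_cases h2 : res (k + 1) y = res (k + 1) x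
  · exact (res_eq_iff.mp h2 k (Nat.lt_succ_self k)).symm
  · simp [h2] at h1

lemma sum_prD (flip : Bool) (n : ℕ) : ∑ i, prD flip n i = 1 := by
  classical
  refine Subtype.ext (Subtype.ext (ent_ext fun x y => ?_))
  have h1 : (((∑ i, prD flip n i : DD flip) : AA) : B) = ∑ i, (prj n i : B) := by
    push_cast
    rfl
  rw [h1, ent_sum]
  show _ = ent (1 : B) x y
  rw [ent_one]
  simp_rw [ent_prj]
  by_cases h : x = y
  · subst h
    simp
  · simp [h]

lemma char_prD (flip : Bool) (w : Spec (DD flip)) (n : ℕ) :
    ∃ i, w (prD flip n i) = 1 ∧ ∀ j, w (prD flip n j) ≠ 0 → j = i := by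
  classical
  have hmul : ∀ a b : DD flip, w (a * b) = w a * w b := fun a b => map_mul w a b
  have h1 : ∑ i, w (prD flip n i) = 1 := by
    rw [← map_sum, sum_prD, map_one]
  obtain ⟨i, hi⟩ : ∃ i, w (prD flip n i) ≠ 0 := by
    by_contra hc
    push Not at hc
    simp [hc] at h1
  refine ⟨i, ?_, ?_⟩
  · have h2 := hmul (prD flip n i) (prD flip n i)
    rw [prD_mul_self] at h2
    have h3 : w (prD flip n i) * (w (prD flip n i) - 1) = 0 := by
      rw [mul_sub, ← h2]; ring
    rcases mul_eq_zero.mp h3 with h4 | h4
    · exact absurd h4 hi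
    · exact sub_eq_zero.mp h4
  · intro j hj
    by_contra hne
    have h2 := hmul (prD flip n j) (prD flip n i)
    rw [prD_mul_ne flip n hne, map_zero] at h2
    exact (mul_ne_zero hj hi) h2.symm

lemma ev_surjective (flip : Bool) : Function.Surjective (ev flip) := by
  classical
  intro w
  choose i hi1 hi2 using char_prD flip w
  have hmul : ∀ a b : DD flip, w (a * b) = w a * w b := fun a b => map_mul w a b
  have hcons : ∀ n m (h : n ≤ m), (fun k : Fin n => i m ⟨k, k.2.trans_le h⟩) = i n := by
    intro n m h
    apply hi2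
    have h2 := hmul (prD flip m (i m)) (prD flip n fun k => i m ⟨k, k.2.trans_le h⟩)
    rw [prD_mul flip h, hi1 m, one_mul] at h2
    rw [← h2]
    exact one_ne_zero
  let x : Om := fun k => i (k + 1) ⟨k, Nat.lt_succ_self k⟩
  have hx : ∀ n, res n x = i n := by
    intro n
    funext k
    show i (k + 1) ⟨k, Nat.lt_succ_self k⟩ = i n k
    have := congrFun (hcons (k + 1) n k.2) ⟨k, Nat.lt_succ_self k⟩
    rw [← this]
  refine ⟨x, ?_⟩
  -- the two characters agree on a dense set
  have hw : Continuous (fun d : DD flip => w d) := map_continuous w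
  have he : Continuous (fun d : DD flip => ev flip x d) := map_continuous (ev flip x)
  have hdense : Dense {d : DD flip | ∃ n α, d = dpart flip n α} := by
    intro d
    rw [Metric.mem_closure_iff]
    intro ε hε
    obtain ⟨n, α, h⟩ := dpart_dense flip d hε
    exact ⟨_, ⟨n, α, rfl⟩, by rwa [dist_eq_norm]⟩
  have heq : (fun d : DD flip => ev flip x d) = fun d : DD flip => w d := by
    refine Continuous.ext_on hdense he hw ?_
    rintro _ ⟨n, α, rfl⟩
    show ev flip x (dpart flip n α) = w (dpart flip n α)
    rw [ev_apply, ent_dpart, if_pos rfl, dpart, map_sum]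
    have h1 : ∀ j, w (α j j • prD flip n j) = if j = i n then α j j else 0 := by
      intro j
      rw [map_smul]
      by_cases hj : j = i n
      · rw [if_pos hj, hj, hi1 n]; simp
      · rw [if_neg hj]
        have : w (prD flip n j) = 0 := by
          by_contra hc
          exact hj (hi2 n j hc)
        rw [this]; simp
    simp_rw [h1]
    simp [hx n]
  exact DFunLike.ext _ _ fun d => congrFun heq d

/-- the homeomorphism between the path space and the spectrum -/
def evH (flip : Bool) : Om ≃ₜ Spec (DD flip) :=
  Continuous.homeoOfEquivCompactToT2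
    (f := Equiv.ofBijective (ev flip) ⟨ev_injective flip, ev_surjective flip⟩)
    (continuous_ev flip)

lemma evH_apply (flip : Bool) (x : Om) : evH flip x = ev flip x := rfl

end

end Pool.Agent.Lib.MP_6e0de5_an
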